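import Pool.Agent.H257.TW.Stm

/-!
# Leaf ICC: the icc property is an invariant of the group von Neumann algebra
-/

set_option autoImplicit false

namespace Pool.Agent.H257.TW.ICC

open Pool.Agent.H494R3.GT Pool.Agent.N557.QW Pool.Agent.N169.QWP
open Pool.Agent.N414.LR (Op IsIcc)
open Filter

noncomputable section

theorem cf_sum {Λ : Type} [Group Λ] (F : Finset Λ) (f : Λ → Op Λ) (h : Λ) :
    cf (∑ k ∈ F, f k) h = ∑ k ∈ F, cf (f k) h := by
  classical
  induction F using Finset.induction_on with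
  | empty =>
    rw [Finset.sum_empty, Finset.sum_empty, cf]
    exact inner_zero_right _
  | insert a F ha ih =>
    rw [Finset.sum_insert ha, Finset.sum_insert ha, ← ih, cf, cf, cf]
    exact inner_add_right _ _ _

theorem cf_lam_eq {Λ : Type} [Group Λ] (h : Λ) : cf (lam h : Op Λ) h = 1 := by
  rw [cf, lam_dl, mul_one, inner_dl]
  exact dl_apply_self _

theorem cf_lam_of_ne {Λ : Type} [Group Λ] {k h : Λ} (e : k ≠ h) : cf (lam k : Op Λ) h = 0 := by
  rw [cf, lam_dl, mul_one, inner_dl]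
  exact dl_apply_ne e.symm

theorem cf_one_of_ne {Λ : Type} [Group Λ] {h : Λ} (e : h ≠ 1) : cf (1 : Op Λ) h = 0 := by
  rw [← lam_one]
  exact cf_lam_of_ne e.symm

/-- An element of `L(G)` which commutes with the translations is a scalar, if `G` is icc. -/
theorem scalar {G : Type} [Group G] (hG : IsIcc G) {x : Op G} (hx : x ∈ LG G)
    (hc : ∀ g : G, lam g * x = x * lam g) : x = (cf x 1) • (1 : Op G) := by
  have h1 : ∀ a s : G, cf x (s⁻¹ * a * s) = cf x a := by
    intro a s
    have e1 := LG_coeff hx s (a * s)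
    have e2 := com_coeff hc s (a * s)
    rw [e1] at e2
    rw [show a * s * s⁻¹ = a by group] at e2
    rw [show s⁻¹ * (a * s) = s⁻¹ * a * s by group] at e2
    exact e2.symm
  have hsum : Summable fun t : G => ‖cf x t‖ ^ (2 : ENNReal).toReal := by
    have h2 := (lp.memℓp (x (dl 1) : L2 G)).summable (by norm_num)
    refine h2.congr fun t => ?_
    rw [cf, inner_dl]
  have h0 : ∀ a : G, a ≠ 1 → cf x a = 0 := by
    intro a ha
    by_contra hne
    have hpos : 0 < ‖cf x a‖ ^ (2 : ENNReal).toReal :=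
      Real.rpow_pos_of_pos (norm_pos_iff.2 hne) _
    have h3 := hsum.tendsto_cofinite_zero.eventually (gt_mem_nhds hpos)
    rw [Filter.eventually_cofinite] at h3
    refine hG a ha (h3.subset ?_)
    rintro b ⟨k, rfl⟩
    have h4 := h1 a k⁻¹
    rw [inv_inv] at h4
    show ¬ ‖cf x (k * a * k⁻¹)‖ ^ (2 : ENNReal).toReal < ‖cf x a‖ ^ (2 : ENNReal).toReal
    rw [h4]
    exact lt_irrefl _
  apply Pool.Agent.N414.LR.END.ext_LG hx
    (Pool.Agent.N414.LR.END.smul_mem' _ ((LG G).toStarSubalgebra.one_mem))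
  apply vec_ext
  intro t
  have e0 : ∀ y : Op G, (y (dl 1)) t = cf y t := fun y => by rw [cf, inner_dl]
  rw [e0, e0, Pool.Agent.N414.LR.END.cf_smul]
  by_cases ht : t = 1
  · rw [ht, Pool.Agent.N414.LR.END.cf_one_one, mul_one]
  · rw [h0 t ht, cf_one_of_ne ht, mul_zero]

theorem main : S_ICC := by
  classical
  intro G Λ _ _ ⟨θ⟩ hG h hh
  by_contra hfin
  rw [Set.not_infinite] at hfin
  set F : Finset Λ := hfin.toFinset with hF
  have hmem : ∀ k, k ∈ F ↔ ∃ s : Λ, s * h * s⁻¹ = k := fun k => by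
    rw [hF, Set.Finite.mem_toFinset]
    rfl
  set z : Op Λ := ∑ k ∈ F, lam k with hz
  have hzmem : z ∈ (LG Λ).toStarSubalgebra := sum_mem fun k _ => lam_mem k
  have hzc : ∀ s : Λ, lam s * z = z * lam s := by
    intro s
    rw [hz, Finset.mul_sum, Finset.sum_mul]
    refine Finset.sum_bij' (fun k _ => s * k * s⁻¹) (fun k _ => s⁻¹ * k * s) ?_ ?_ ?_ ?_ ?_
    · intro k hk
      obtain ⟨t, rfl⟩ := (hmem k).1 hk
      exact (hmem _).2 ⟨s * t, by group⟩
    · intro k hk
      obtain ⟨t, rfl⟩ := (hmem k).1 hk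
      exact (hmem _).2 ⟨s⁻¹ * t, by group⟩
    · intro k _
      show s⁻¹ * (s * k * s⁻¹) * s = k
      group
    · intro k _
      show s * (s⁻¹ * k * s) * s⁻¹ = k
      group
    · intro k _
      show lam s * lam k = lam (s * k * s⁻¹) * lam s
      rw [← lam_mul, ← lam_mul]
      congr 1
      group
  have hzcom : ∀ y : (LG Λ).toStarSubalgebra, (⟨z, hzmem⟩ : (LG Λ).toStarSubalgebra) * y =
      y * ⟨z, hzmem⟩ := fun y => Subtype.ext (commute y.2 hzc)
  set x : (LG G).toStarSubalgebra := θ.symm ⟨z, hzmem⟩ with hx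
  have hθx : θ x = ⟨z, hzmem⟩ := θ.apply_symm_apply _
  have hxc : ∀ g : G, (lam g : Op G) * (x : Op G) = (x : Op G) * lam g := by
    intro g
    have h1 : (⟨lam g, lam_mem g⟩ : (LG G).toStarSubalgebra) * x = x * ⟨lam g, lam_mem g⟩ := by
      have h0 : Function.Injective θ := EquivLike.injective θ
      apply h0
      rw [map_mul, map_mul, hθx, hzcom]
    exact congrArg Subtype.val h1
  have h2 := scalar hG x.2 hxc
  have h3 : x = (cf (x : Op G) 1) • (1 : (LG G).toStarSubalgebra) := Subtype.ext h2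
  have h4 : (⟨z, hzmem⟩ : (LG Λ).toStarSubalgebra) =
      (cf (x : Op G) 1) • (1 : (LG Λ).toStarSubalgebra) := by
    rw [← hθx]
    conv_lhs => rw [h3]
    rw [map_smul, map_one]
  have h5 : z = (cf (x : Op G) 1) • (1 : Op Λ) := congrArg Subtype.val h4
  have h6 : cf z h = 1 := by
    rw [hz, cf_sum, Finset.sum_eq_single h, cf_lam_eq]
    · intro k _ hk
      exact cf_lam_of_ne hk
    · intro hn
      exact absurd ((hmem h).2 ⟨1, by group⟩) hn
  rw [h5, Pool.Agent.N414.LR.END.cf_smul, cf_one_of_ne hh, mul_zero] at h6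
  exact zero_ne_one h6

end

end Pool.Agent.H257.TW.ICC
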