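import Pool.Agent.H257.TW.Stm

/-!
# Project TW, leaf IU (helper139): a trace preserving isomorphism is implemented by a unitary
-/

set_option autoImplicit false

namespace Pool.Agent.H257.TW.IU

open Pool.Agent.H494R3.GT Pool.Agent.N557.QW
open Pool.Agent.N414.LR (Op)

noncomputable section

lemma inner_v {Λ : Type} [Group Λ] (y z : Op Λ) :
    inner ℂ (y (dl 1)) (z (dl 1)) = cf (star y * z) 1 := by
  rw [cf, mul_ap]
  exact (ContinuousLinearMap.adjoint_inner_right y (dl 1) (z (dl 1))).symm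

theorem main : S_IU := by
  intro G Λ _ _ θ hθ
  obtain ⟨v, hv, -, hv1, hden⟩ := Pool.Agent.N414.LR.END.t_den G Λ θ hθ
  let L : G → (LG G).toStarSubalgebra := fun g => ⟨lam g, lam_mem g⟩
  have hstar : ∀ z, θ (star z) = star (θ z) := fun z => θ.map_star' z
  have hpair : ∀ (g : G) (x : (LG G).toStarSubalgebra),
      inner ℂ ((v g : Op Λ) (dl 1)) ((θ x : Op Λ) (dl 1)) = ((x : Op G) (dl 1)) g := by
    intro g x
    have h1 : star (v g : Op Λ) * (θ x : Op Λ) = (θ (star (L g) * x) : Op Λ) := by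
      rw [map_mul, hstar, hv g]
      rfl
    rw [inner_v, h1, hθ]
    have h2 : ((star (L g) * x : (LG G).toStarSubalgebra) : Op G) = star (lam g) * (x : Op G) := rfl
    rw [h2, ← inner_v, lam_dl, mul_one, inner_dl]
  have hortho : Orthonormal ℂ (fun g : G => (v g : Op Λ) (dl 1)) := by
    classical
    rw [orthonormal_iff_ite]
    intro g h
    have h1 := hpair g (L h)
    have h2 : (θ (L h) : Op Λ) = (v h : Op Λ) := (hv h).symm
    rw [h2] at h1
    rw [h1]
    show (lam h (dl 1)) g = _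
    rw [lam_dl, mul_one]
    by_cases hgh : g = h
    · rw [if_pos hgh, hgh, dl_apply_self]
    · rw [if_neg hgh]
      exact dl_apply_ne hgh
  let b : HilbertBasis G ℂ (L2 Λ) := HilbertBasis.mk hortho hden.ge
  have hb : ∀ g, b g = (v g : Op Λ) (dl 1) := fun g => by
    show (HilbertBasis.mk hortho hden.ge) g = _
    rw [HilbertBasis.coe_mk]
  have hrepr : ∀ x : (LG G).toStarSubalgebra, b.repr ((θ x : Op Λ) (dl 1)) = (x : Op G) (dl 1) := by
    intro x
    apply vec_ext
    intro g
    rw [b.repr_apply_apply, hb, hpair]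
  have hU1 : ∀ x : (LG G).toStarSubalgebra, b.repr.symm ((x : Op G) (dl 1)) = (θ x : Op Λ) (dl 1) := by
    intro x
    rw [← hrepr, LinearIsometryEquiv.symm_apply_apply]
  have hUdl : ∀ g : G, b.repr.symm (dl g) = (v g : Op Λ) (dl 1) := by
    intro g
    have h1 := hU1 (L g)
    have h2 : (θ (L g) : Op Λ) = (v g : Op Λ) := (hv g).symm
    rw [h2] at h1
    rw [← h1]
    show _ = b.repr.symm (lam g (dl 1))
    rw [lam_dl, mul_one]
  refine ⟨b.repr.symm, ?_, ?_⟩
  · rw [hUdl, map_one]
    rfl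
  · intro x ξ
    have key : ∀ g : G, b.repr.symm ((x : Op G) (dl g)) = (θ x : Op Λ) (b.repr.symm (dl g)) := by
      intro g
      have h1 : (x : Op G) (dl g) = ((x * L g : (LG G).toStarSubalgebra) : Op G) (dl 1) := by
        show _ = (x : Op G) (lam g (dl 1))
        rw [lam_dl, mul_one]
      rw [h1, hU1, map_mul, hUdl, hv g]
      rfl
    have hdense : Dense ((Submodule.span ℂ (Set.range (dl : G → L2 G)) : Submodule ℂ (L2 G)) :
        Set (L2 G)) := by
      exact (Submodule.dense_iff_topologicalClosure_eq_top).mpr (Pool.Agent.N414.LR.END.span_dl G)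
    have h2 : (b.repr.symm.toContinuousLinearEquiv : L2 G →L[ℂ] L2 Λ).comp (x : Op G) =
        (θ x : Op Λ).comp (b.repr.symm.toContinuousLinearEquiv : L2 G →L[ℂ] L2 Λ) := by
      refine ContinuousLinearMap.ext_on hdense ?_
      rintro _ ⟨g, rfl⟩
      exact key g
    exact congrArg (fun T : L2 G →L[ℂ] L2 Λ => T ξ) h2

end

end Pool.Agent.H257.TW.IU
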