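import Pool.Agent.H257.TW.Stm

/-!
# PACK: a packing bound (helper864)
-/

set_option autoImplicit false

namespace Pool.Agent.H257.TW.PACK

open Finset

/-- one row -/
theorem row {P : Type} (E : Finset P) (a b : P → ℂ) (ha : HasSum (fun p => ‖a p‖ ^ 2) 1)
    (hb : HasSum (fun p => ‖b p‖ ^ 2) 1) :
    2 - 2 * (∑' p, (starRingEnd ℂ) (a p) * b p).re - 2 * (1 - ∑ p ∈ E, ‖a p‖ ^ 2) -
      2 * (1 - ∑ p ∈ E, ‖b p‖ ^ 2) ≤ ∑ p ∈ E, ‖a p - b p‖ ^ 2 := by
  have hh : Summable (fun p => (starRingEnd ℂ) (a p) * b p) := by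
    refine Summable.of_norm_bounded (ha.summable.add hb.summable) fun p => ?_
    rw [norm_mul, RCLike.norm_conj]
    nlinarith [sq_nonneg (‖a p‖ - ‖b p‖), norm_nonneg (a p), norm_nonneg (b p)]
  have hre : HasSum (fun p => ((starRingEnd ℂ) (a p) * b p).re)
      (∑' p, (starRingEnd ℂ) (a p) * b p).re := Complex.hasSum_re hh.hasSum
  have hd : ∀ p, ‖a p - b p‖ ^ 2 =
      ‖a p‖ ^ 2 + ‖b p‖ ^ 2 - 2 * ((starRingEnd ℂ) (a p) * b p).re := by
    intro p
    rw [Complex.sq_norm, Complex.sq_norm, Complex.sq_norm, Complex.normSq_apply,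
      Complex.normSq_apply, Complex.normSq_apply]
    simp only [Complex.sub_re, Complex.sub_im, Complex.mul_re, Complex.conj_re, Complex.conj_im]
    ring
  have hsum : HasSum (fun p => 2 * ‖a p‖ ^ 2 + 2 * ‖b p‖ ^ 2 - ‖a p - b p‖ ^ 2)
      (2 * 1 + 2 * 1 - (1 + 1 - 2 * (∑' p, (starRingEnd ℂ) (a p) * b p).re)) := by
    simp only [hd]
    exact ((ha.mul_left 2).add (hb.mul_left 2)).sub ((ha.add hb).sub (hre.mul_left 2))
  have h2 := sum_le_hasSum E (fun p _ => by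
    have h3 := hd p
    have h4 : ‖a p - b p‖ ≤ ‖a p‖ + ‖b p‖ := norm_sub_le _ _
    have h5 : ‖a p - b p‖ ^ 2 ≤ (‖a p‖ + ‖b p‖) ^ 2 := pow_le_pow_left₀ (norm_nonneg _) h4 2
    nlinarith [sq_nonneg (‖a p‖ - ‖b p‖)]) hsum
  rw [sum_sub_distrib, sum_add_distrib, ← mul_sum, ← mul_sum] at h2
  linarith

theorem main : S_PACK := by
  classical
  intro P N m E D hm hD hor hout
  have hm0 : (0 : ℝ) < m := by exact_mod_cast hm
  have hsm : 0 < Real.sqrt m := Real.sqrt_pos.2 hm0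
  obtain ⟨x, hx⟩ : ∃ x : Fin N → EuclideanSpace ℂ (Fin m × E), ∀ i j p,
      x i (j, p) = D i j p / (Real.sqrt m : ℂ) :=
    ⟨fun i => WithLp.toLp 2 (fun q : Fin m × E => D i q.1 q.2 / (Real.sqrt m : ℂ)),
      fun _ _ _ => rfl⟩
  have hnm : ‖(Real.sqrt m : ℂ)‖ ^ 2 = m := by
    rw [Complex.norm_real, Real.norm_eq_abs, abs_of_pos hsm, Real.sq_sqrt hm0.le]
  have hn1 : ∀ i, ‖x i‖ ^ 2 = (∑ j, ∑ p ∈ E, ‖D i j p‖ ^ 2) / m := by
    intro i
    rw [EuclideanSpace.norm_sq_eq, Fintype.sum_prod_type, sum_div]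
    refine sum_congr rfl fun j _ => ?_
    rw [← Finset.sum_coe_sort E (fun p => ‖D i j p‖ ^ 2), sum_div]
    refine sum_congr rfl fun p _ => ?_
    rw [hx, norm_div, div_pow, hnm]
  have hn2 : ∀ i i', ‖x i - x i'‖ ^ 2 = (∑ j, ∑ p ∈ E, ‖D i j p - D i' j p‖ ^ 2) / m := by
    intro i i'
    rw [EuclideanSpace.norm_sq_eq, Fintype.sum_prod_type, sum_div]
    refine sum_congr rfl fun j _ => ?_
    rw [← Finset.sum_coe_sort E (fun p => ‖D i j p - D i' j p‖ ^ 2), sum_div]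
    refine sum_congr rfl fun p _ => ?_
    rw [PiLp.sub_apply, hx, hx, ← sub_div, norm_div, div_pow, hnm]
  have hball : ∀ i, ‖x i‖ ≤ 2 := by
    intro i
    have h1 : ‖x i‖ ^ 2 ≤ 1 := by
      rw [hn1, div_le_one hm0]
      have h2 : ∀ j ∈ (univ : Finset (Fin m)), ∑ p ∈ E, ‖D i j p‖ ^ 2 ≤ 1 := fun j _ =>
        sum_le_hasSum E (fun p _ => sq_nonneg _) (hD i j)
      refine (sum_le_sum h2).trans ?_
      rw [sum_const, card_univ, Fintype.card_fin, nsmul_eq_mul, mul_one]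
    nlinarith [norm_nonneg (x i)]
  have hsep : ∀ i i', i ≠ i' → 1 ≤ ‖x i - x i'‖ := by
    intro i i' hii
    have h1 : ∑ j : Fin m, (2 - 2 * (∑' p, (starRingEnd ℂ) (D i j p) * D i' j p).re -
        2 * (1 - ∑ p ∈ E, ‖D i j p‖ ^ 2) - 2 * (1 - ∑ p ∈ E, ‖D i' j p‖ ^ 2)) ≤
        ∑ j, ∑ p ∈ E, ‖D i j p - D i' j p‖ ^ 2 :=
      sum_le_sum fun j _ => row E (D i j) (D i' j) (hD i j) (hD i' j)
    rw [sum_sub_distrib, sum_sub_distrib, sum_sub_distrib, ← mul_sum, ← mul_sum, ← mul_sum,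
      sum_const, card_univ, Fintype.card_fin, nsmul_eq_mul, ← Complex.re_sum] at h1
    have h2 := hor i i' hii
    have h3 := (Complex.re_le_norm (∑ j, ∑' p, (starRingEnd ℂ) (D i j p) * D i' j p)).trans h2
    have h4 := hout i
    have h5 := hout i'
    have h6 : (m : ℝ) ≤ ∑ j, ∑ p ∈ E, ‖D i j p - D i' j p‖ ^ 2 := by linarith
    have h7 : 1 ≤ ‖x i - x i'‖ ^ 2 := by
      rw [hn2, one_le_div hm0]
      exact h6
    nlinarith [norm_nonneg (x i - x i')]
  have hinj : Function.Injective x := by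
    intro i i' h
    by_contra hne
    have h1 := hsep i i' hne
    rw [h, sub_self, norm_zero] at h1
    linarith
  have h1 := Besicovitch.card_le_of_separated (E := EuclideanSpace ℂ (Fin m × E))
    (univ.image x) (by
      intro c hc
      obtain ⟨i, -, rfl⟩ := mem_image.1 hc
      exact hball i) (by
      intro c hc d hd hcd
      obtain ⟨i, -, rfl⟩ := mem_image.1 hc
      obtain ⟨i', -, rfl⟩ := mem_image.1 hd
      exact hsep i i' fun h => hcd (by rw [h]))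
  rw [card_image_of_injective _ hinj, card_univ, Fintype.card_fin, finrank_real_of_complex,
    finrank_euclideanSpace, Fintype.card_prod, Fintype.card_fin, Fintype.card_coe, pow_mul] at h1
  exact h1

end Pool.Agent.H257.TW.PACK


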