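import Pool.Agent.H257.TW.Stm
import Pool.Agent.H257.HD.REP

/-!
# Project TW, leaf TRI (helper668): an invariant vector gives a tight operator
-/

set_option autoImplicit false

namespace Pool.Agent.H257.TW.TRI

open Pool.Agent.H494R3.GT Pool.Agent.N557.QW Pool.Agent.N169.QWP
open Pool.Agent.N414.LR (Op)
open Pool.Agent.N2.LR.HS (mk2 mk2_apply sq_summable sq_tsum)
open Pool.Agent.H257.HD
open Pool.Agent.H257.HD.REP (MM_apply MM_comm ap_coeff enorm_sq exists_small)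
open scoped ENNReal Topology Pointwise
open Filter

noncomputable section

variable {Λ : Type} [Group Λ]

/-- the permutation `(b, d) ↦ (b d⁻¹, d⁻¹)` -/
def sh (p : Λ × Λ) : Λ × Λ := (p.1 * p.2⁻¹, p.2⁻¹)

lemma sh_inj : Function.Injective (sh : Λ × Λ → Λ × Λ) := by
  rintro ⟨b, d⟩ ⟨b', d'⟩ e
  simp only [sh, Prod.mk.injEq, inv_inj] at e
  obtain ⟨e1, e2⟩ := e
  subst e2
  rw [mul_left_inj] at e1
  rw [e1]

lemma slice_le (x : L2 (Λ × Λ)) :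
    ∑' b, ∑' d, ‖x (b * d⁻¹, d⁻¹)‖ₑ ^ 2 ≤ ‖x‖ₑ ^ 2 := by
  rw [enorm_sq]
  have h1 : ∑' b, ∑' d, ‖x (b * d⁻¹, d⁻¹)‖ₑ ^ 2 = ∑' p : Λ × Λ, ‖x (sh p)‖ₑ ^ 2 :=
    (ENNReal.tsum_prod (f := fun b d => ‖x (b * d⁻¹, d⁻¹)‖ₑ ^ 2)).symm
  rw [h1]
  exact ENNReal.tsum_comp_le_tsum_of_injective sh_inj (fun y => ‖x y‖ₑ ^ 2)

/-- the coordinates of `XX x ζ` -/
lemma XX_coeff {x : Op Λ} (hx : x ∈ LG Λ) (ζ : L2 (Λ × Λ)) (a b : Λ) :
    (XX Λ x ζ) (a, b) = ∑' k, (starRingEnd ℂ) (cf x k) * ζ (a * k, b * k) := by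
  rw [ap_coeff]
  have hinj : Function.Injective (fun k : Λ => ((a * k, b * k) : Λ × Λ)) := by
    intro k k' e
    exact mul_left_cancel (Prod.ext_iff.1 e).1
  rw [← hinj.tsum_eq]
  · refine tsum_congr fun k => ?_
    rw [XX_ap hx]
    have e1 : a⁻¹ * (a * k) = k := by group
    have e2 : b * k * (a * k)⁻¹ = b * a⁻¹ := by group
    rw [e1, if_pos e2, mul_one]
  · rintro ⟨c, d⟩ hcd
    by_cases e : d * c⁻¹ = b * a⁻¹
    · refine ⟨a⁻¹ * c, ?_⟩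
      have e3 : d = b * a⁻¹ * c := by rw [← e]; group
      rw [e3]
      simp only [Prod.mk.injEq]
      constructor <;> group
    · exfalso
      apply hcd
      beta_reduce
      rw [XX_ap hx, if_neg e, mul_zero, zero_mul]

/-- the coordinates of `TT x 1 ζ` -/
lemma TT_left_coeff {x : Op Λ} (hx : x ∈ LG Λ) (ζ : L2 (Λ × Λ)) (a b : Λ) :
    (TT Λ Λ x 1 ζ) (a, b) = ∑' p, cf x (a * p⁻¹) * ζ (p, b) := by
  rw [ap_coeff]
  have hinj : Function.Injective (fun p : Λ => ((p, b) : Λ × Λ)) := by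
    intro k k' e
    exact (Prod.ext_iff.1 e).1
  rw [← hinj.tsum_eq]
  · refine tsum_congr fun p => ?_
    have e1 : ((1 : Op Λ) (dl b) : L2 Λ) b = 1 := dl_apply_self b
    rw [TT_ap, e1, mul_one, LG_coeff hx]
  · rintro ⟨p, q⟩ hpq
    by_cases e : b = q
    · exact ⟨p, by rw [e]⟩
    · exfalso
      apply hpq
      beta_reduce
      have e1 : ((1 : Op Λ) (dl q) : L2 Λ) b = 0 := dl_apply_ne e
      rw [TT_ap, e1, mul_zero, zero_mul]

/-- the entries of the translates -/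
lemma key {x : Op Λ} (hx : x ∈ LG Λ) (ζ : L2 (Λ × Λ)) (K : Op Λ)
    (hK : ∀ b d, (K (dl d)) b = ζ (b * d⁻¹, d⁻¹)) (b d : Λ) :
    en (ad x K) b d = (TT Λ Λ x 1 (XX Λ x ζ)) (b * d⁻¹, d⁻¹) := by
  rw [en, ad, mul_ap, mul_ap, ap_coeff, TT_left_coeff hx]
  rw [← (Equiv.mulRight d⁻¹).tsum_eq (fun p => cf x (b * d⁻¹ * p⁻¹) * (XX Λ x ζ) (p, d⁻¹))]
  refine tsum_congr fun p => ?_
  rw [Equiv.coe_mulRight, XX_coeff hx, LG_coeff hx]
  have e1 : b * d⁻¹ * (p * d⁻¹)⁻¹ = b * p⁻¹ := by group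
  rw [e1, ap_coeff]
  congr 1
  rw [← ((Equiv.inv Λ).trans (Equiv.mulLeft d)).tsum_eq
    (fun k => (starRingEnd ℂ) (cf x k) * ζ (p * d⁻¹ * k, d⁻¹ * k))]
  refine tsum_congr fun q => ?_
  simp only [Equiv.trans_apply, Equiv.inv_apply, Equiv.coe_mulLeft]
  have e2 : p * d⁻¹ * (d * q⁻¹) = p * q⁻¹ := by group
  have e3 : d⁻¹ * (d * q⁻¹) = q⁻¹ := by group
  rw [e2, e3, hK, star_ap, LG_coeff hx, mul_comm]

theorem main : S_TRI := by
  classical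
  intro G Λ _ _ v hv ζ hζ hinv
  obtain ⟨⟨x₀, y₀⟩, hne⟩ : ∃ x, ζ x ≠ 0 := by
    by_contra hcon
    push Not at hcon
    exact hζ (vec_ext hcon)
  have hsum : Summable fun p : Λ × Λ => ‖ζ (sh p)‖ ^ 2 :=
    (sq_summable ζ).comp_injective sh_inj
  obtain ⟨K, -, hK⟩ := Pool.Agent.N2.LR.HS.main Λ (mk2 (fun p : Λ × Λ => ζ (sh p)) hsum)
  have hK' : ∀ b d, (K (dl d)) b = ζ (b * d⁻¹, d⁻¹) := by
    intro b d
    rw [← inner_dl, hK, mk2_apply]
    rfl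
  refine ⟨K, ?_, ?_, ?_⟩
  · intro h0
    apply hne
    have e1 : x₀ * y₀⁻¹ * (y₀⁻¹)⁻¹ = x₀ := by group
    have h1 := hK' (x₀ * y₀⁻¹) y₀⁻¹
    rw [h0, e1, inv_inv] at h1
    exact h1.symm
  · have h1 : hs K ≤ ‖ζ‖ₑ ^ 2 := by
      rw [hs]
      simp only [en, hK']
      exact slice_le ζ
    exact lt_of_le_of_lt h1 (ENNReal.pow_lt_top enorm_lt_top)
  · intro ε hε
    obtain ⟨Φ, hΦ⟩ := exists_small ζ ε hε
    refine ⟨Prod.fst '' (Φ : Set (Λ × Λ)), Φ.finite_toSet.image _, fun g => ?_⟩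
    set A : Set Λ := Prod.fst '' (Φ : Set (Λ × Λ)) with hA
    let S : Set (Λ × Λ) := {x | x.1 ∉ A}
    have un1 : star (v g : Op Λ) * (v g : Op Λ) = 1 := (Unitary.mem_iff.1 (v g).2).1
    have un2 : (v g : Op Λ) * star (v g : Op Λ) = 1 := (Unitary.mem_iff.1 (v g).2).2
    let D : Op (Λ × Λ) := TT Λ Λ 1 (v g)
    have hD' : star D * D = 1 ∧ D * star D = 1 := by
      change star (TT Λ Λ 1 (v g : Op Λ)) * TT Λ Λ 1 (v g : Op Λ) = 1 ∧
        TT Λ Λ 1 (v g : Op Λ) * star (TT Λ Λ 1 (v g : Op Λ)) = 1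
      rw [TT_star, ← TT_mul, ← TT_mul, un1, un2, star_one, one_mul, TT_one]
      exact ⟨rfl, rfl⟩
    have hD : D ∈ unitary (Op (Λ × Λ)) := Unitary.mem_iff.2 hD'
    have hDE : D * TT Λ Λ (v g) 1 = TT Λ Λ (v g) (v g) := by
      change TT Λ Λ 1 (v g : Op Λ) * TT Λ Λ (v g : Op Λ) 1 = _
      rw [← TT_mul, one_mul, mul_one]
    have hE : TT Λ Λ (v g) 1 (XX Λ (v g) ζ) = star D ζ := by
      have h1 : (D * (TT Λ Λ (v g) 1 * XX Λ (v g))) ζ = ζ := by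
        rw [← mul_assoc, hDE]
        exact hinv g
      have h2 : (star D * (D * (TT Λ Λ (v g) 1 * XX Λ (v g)))) ζ = star D ζ := by
        rw [mul_ap, h1]
      rw [← mul_assoc, hD'.1, one_mul, mul_ap] at h2
      exact h2
    have c3 : MM S * D = D * MM S := by
      apply MM_comm
      rintro ⟨p, q⟩ ⟨p', q'⟩
      by_cases e1 : p' = p
      · subst e1
        exact Or.inl Iff.rfl
      · right
        change (TT Λ Λ 1 (v g : Op Λ) (dl (p, q))) (p', q') = 0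
        have e3 : ((1 : Op Λ) (dl p) : L2 Λ) p' = 0 := dl_apply_ne e1
        rw [TT_ap, e3, zero_mul]
    have c4 : MM S * star D = star D * MM S := by
      have h1 := congrArg star c3
      rw [star_mul (MM S) D, star_mul D (MM S), star_MM] at h1
      exact h1.symm
    have hnorm : ‖star D (MM S ζ)‖ₑ = ‖MM S ζ‖ₑ := by
      have h1 : ‖star D (MM S ζ)‖ = ‖MM S ζ‖ :=
        ContinuousLinearMap.norm_map_of_mem_unitary (Unitary.star_mem hD) _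
      rw [← ofReal_norm, ← ofReal_norm, h1]
    have h1 : tl A (ad (v g : Op Λ) K) =
        ∑' b, ∑' d, ‖(MM S (star D ζ)) (b * d⁻¹, d⁻¹)‖ₑ ^ 2 := by
      rw [tl]
      refine tsum_congr fun b => tsum_congr fun d => ?_
      rw [key (hv g) ζ K hK', hE, MM_apply]
      by_cases h2 : b * d⁻¹ ∈ A
      · have h3 : ((b * d⁻¹, d⁻¹) : Λ × Λ) ∉ S := fun h4 => h4 h2
        rw [if_pos h2, if_neg h3]
        simp
      · have h3 : ((b * d⁻¹, d⁻¹) : Λ × Λ) ∈ S := h2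
        rw [if_neg h2, if_pos h3]
    rw [h1]
    refine (slice_le _).trans ?_
    have h5 : MM S (star D ζ) = star D (MM S ζ) := by
      rw [← mul_ap, c4, mul_ap]
    rw [h5, hnorm]
    refine hΦ S fun p hp hpΦ => hp ?_
    exact ⟨p, hpΦ, rfl⟩

end

end Pool.Agent.H257.TW.TRI
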