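import Pool.Agent.H257.TW.Stm

/-!
# Project TW, leaf TVV: the tensor square of a unitary (helper268)
-/

set_option autoImplicit false

namespace Pool.Agent.H257.TW.TVV

open Pool.Agent.H494R3.GT Pool.Agent.N557.QW
open Pool.Agent.N414.LR (Op IsIcc)
open Pool.Agent.N2.LR.HS (mk2 mk2_apply sq_summable sq_tsum)

noncomputable section

/-- continuous linear maps on `ℓ²(P)` are determined by the basis vectors -/
theorem clm_ext {P E : Type} [NormedAddCommGroup E] [NormedSpace ℂ E] {T S : L2 P →L[ℂ] E}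
    (h : ∀ p, T (dl p) = S (dl p)) : T = S := by
  have h1 : (Submodule.span ℂ (Set.range (dl : P → L2 P))).topologicalClosure = ⊤ := by
    rw [Submodule.topologicalClosure_eq_top_iff, Submodule.eq_bot_iff]
    intro v hv
    refine vec_ext fun p => ?_
    rw [← inner_dl]
    exact (Submodule.mem_orthogonal _ _).1 hv _ (Submodule.subset_span ⟨p, rfl⟩)
  have h2 : Dense (Submodule.span ℂ (Set.range (dl : P → L2 P)) : Set (L2 P)) := by
    rw [dense_iff_closure_eq, ← Submodule.topologicalClosure_coe, h1]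
    rfl
  refine ContinuousLinearMap.ext_on h2 ?_
  rintro _ ⟨p, rfl⟩
  exact h p

theorem tv_summable {P Q : Type} (x : L2 P) (y : L2 Q) :
    Summable fun p : P × Q => ‖x p.1 * y p.2‖ ^ 2 := by
  have h := (sq_summable x).mul_of_nonneg (sq_summable y) (fun _ => by positivity) (fun _ => by positivity)
  refine h.congr fun p => ?_
  rw [norm_mul, mul_pow]

/-- the vector `(p, q) ↦ x p * y q` -/
def tv {P Q : Type} (x : L2 P) (y : L2 Q) : L2 (P × Q) := mk2 (fun p => x p.1 * y p.2) (tv_summable x y)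

theorem tv_ap {P Q : Type} (x : L2 P) (y : L2 Q) (p : P × Q) : tv x y p = x p.1 * y p.2 := rfl

theorem tv_norm_sq {P Q : Type} (x : L2 P) (y : L2 Q) : ‖tv x y‖ ^ 2 = ‖x‖ ^ 2 * ‖y‖ ^ 2 := by
  have h := (sq_summable x).mul_of_nonneg (sq_summable y) (fun _ => by positivity) (fun _ => by positivity)
  rw [← sq_tsum, ← sq_tsum, ← sq_tsum, (sq_summable x).tsum_mul_tsum (sq_summable y) h]
  refine tsum_congr fun p => ?_
  rw [tv_ap, norm_mul, mul_pow]

theorem tv_norm {P Q : Type} (x : L2 P) (y : L2 Q) : ‖tv x y‖ = ‖x‖ * ‖y‖ := by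
  have h := tv_norm_sq x y
  rw [← mul_pow] at h
  exact (pow_left_inj₀ (norm_nonneg _) (by positivity) (by norm_num)).1 h

/-- `tv` as a continuous linear map of the first argument -/
def tvl {P Q : Type} (y : L2 Q) : L2 P →L[ℂ] L2 (P × Q) :=
  LinearMap.mkContinuous
    { toFun := fun x => tv x y
      map_add' := fun x x' => vec_ext fun p => by
        show (x + x') p.1 * y p.2 = (tv x y + tv x' y) p
        rw [lp.coeFn_add, lp.coeFn_add, Pi.add_apply, Pi.add_apply, tv_ap, tv_ap, add_mul]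
      map_smul' := fun c x => vec_ext fun p => by
        show (c • x) p.1 * y p.2 = (c • tv x y) p
        rw [lp.coeFn_smul, lp.coeFn_smul, Pi.smul_apply, Pi.smul_apply, tv_ap, smul_eq_mul, smul_eq_mul,
          mul_assoc] } ‖y‖ (fun x => by
      show ‖tv x y‖ ≤ _
      rw [tv_norm, mul_comm])

theorem tvl_ap {P Q : Type} (x : L2 P) (y : L2 Q) : tvl y x = tv x y := rfl

/-- `tv` as a continuous linear map of the second argument -/
def tvr {P Q : Type} (x : L2 P) : L2 Q →L[ℂ] L2 (P × Q) :=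
  LinearMap.mkContinuous
    { toFun := fun y => tv x y
      map_add' := fun y y' => vec_ext fun p => by
        show x p.1 * (y + y') p.2 = (tv x y + tv x y') p
        rw [lp.coeFn_add, lp.coeFn_add, Pi.add_apply, Pi.add_apply, tv_ap, tv_ap, mul_add]
      map_smul' := fun c y => vec_ext fun p => by
        show x p.1 * (c • y) p.2 = (c • tv x y) p
        rw [lp.coeFn_smul, lp.coeFn_smul, Pi.smul_apply, Pi.smul_apply, tv_ap, smul_eq_mul, smul_eq_mul,
          mul_left_comm] } ‖x‖ (fun y => by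
      show ‖tv x y‖ ≤ _
      rw [tv_norm])

theorem tvr_ap {P Q : Type} (x : L2 P) (y : L2 Q) : tvr x y = tv x y := rfl

theorem tv_dl {P Q : Type} (p : P) (q : Q) : tv (dl p : L2 P) (dl q : L2 Q) = dl (p, q) := by
  refine vec_ext fun r => ?_
  obtain ⟨p', q'⟩ := r
  rw [tv_ap]
  show (dl p : L2 P) p' * (dl q : L2 Q) q' = _
  by_cases hp : p' = p
  · subst hp
    by_cases hq : q' = q
    · subst hq
      rw [dl_apply_self, dl_apply_self, dl_apply_self, mul_one]
    · rw [dl_apply_ne hq, mul_zero, dl_apply_ne (fun h => hq (congrArg Prod.snd h))]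
  · rw [dl_apply_ne hp, zero_mul, dl_apply_ne (fun h => hp (congrArg Prod.fst h))]

theorem tv_inner {P Q : Type} (x x' : L2 P) (y y' : L2 Q) :
    inner ℂ (tv x y) (tv x' y') = inner ℂ x x' * inner ℂ y y' := by
  -- both sides are continuous linear in `y'`, `x'`
  have h1 : ∀ (x : L2 P) (y : L2 Q) (p : P) (q : Q), inner ℂ (tv x y) (dl (p, q)) =
      inner ℂ x (dl p) * inner ℂ y (dl q) := by
    intro x y p q
    rw [← inner_conj_symm, inner_dl, ← inner_conj_symm x, inner_dl, ← inner_conj_symm y, inner_dl, tv_ap, map_mul]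
  have h2 : ∀ p : P, ((innerSL ℂ (tv x y)).comp (tvr (dl p))) = (inner ℂ x (dl p)) • (innerSL ℂ y) := by
    intro p
    refine clm_ext fun q => ?_
    rw [ContinuousLinearMap.comp_apply, tvr_ap, tv_dl, innerSL_apply_apply, h1, smul_apply,
      innerSL_apply_apply, smul_eq_mul]
  have h3 : (innerSL ℂ (tv x y)).comp (tvl y') = (inner ℂ y y') • (innerSL ℂ x) := by
    refine clm_ext fun p => ?_
    rw [ContinuousLinearMap.comp_apply, tvl_ap, smul_apply, innerSL_apply_apply, smul_eq_mul]
    have := DFunLike.congr_fun (h2 p) y'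
    rw [ContinuousLinearMap.comp_apply, tvr_ap, smul_apply, innerSL_apply_apply, smul_eq_mul] at this
    rw [this, mul_comm]
    rfl
  have := DFunLike.congr_fun h3 x'
  rw [ContinuousLinearMap.comp_apply, tvl_ap, smul_apply, innerSL_apply_apply, smul_eq_mul] at this
  rw [this, mul_comm]
  rfl

theorem TT_tv {P Q : Type} (x : Op P) (y : Op Q) (ξ : L2 P) (η : L2 Q) :
    TT P Q x y (tv ξ η) = tv (x ξ) (y η) := by
  have h1 : ∀ p q, TT P Q x y (tv (dl p) (dl q)) = tv (x (dl p)) (y (dl q)) := by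
    intro p q
    rw [tv_dl]
    refine vec_ext fun r => ?_
    obtain ⟨p', q'⟩ := r
    rw [TT_ap, tv_ap]
  have h2 : ∀ p, (TT P Q x y).comp (tvr (dl p)) = (tvr (x (dl p))).comp y := by
    intro p
    exact clm_ext fun q => h1 p q
  have h3 : (TT P Q x y).comp (tvl η) = (tvl (y η)).comp x := by
    refine clm_ext fun p => ?_
    exact DFunLike.congr_fun (h2 p) η
  exact DFunLike.congr_fun h3 ξ

theorem main : S_TVV := by
  intro P P' U
  classical
  -- the orthonormal family
  have hon : Orthonormal ℂ (fun r : P × P => tv (U (dl r.1)) (U (dl r.2))) := by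
    rw [orthonormal_iff_ite]
    intro r s
    rw [tv_inner, LinearIsometryEquiv.inner_map_map, LinearIsometryEquiv.inner_map_map, dl_inner, dl_inner]
    by_cases h1 : r.1 = s.1
    · by_cases h2 : r.2 = s.2
      · rw [if_pos h1, if_pos h2, if_pos (Prod.ext h1 h2), mul_one]
      · rw [if_neg h2, mul_zero, if_neg fun h => h2 (congrArg Prod.snd h)]
    · rw [if_neg h1, zero_mul, if_neg fun h => h1 (congrArg Prod.fst h)]
  have htot : (Submodule.span ℂ (Set.range fun r : P × P => tv (U (dl r.1)) (U (dl r.2))))ᗮ = ⊥ := by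
    rw [Submodule.eq_bot_iff]
    intro ζ hζ
    have h0 : ∀ a b, inner ℂ ζ (tv (U (dl a)) (U (dl b))) = 0 := by
      intro a b
      rw [← inner_conj_symm, (Submodule.mem_orthogonal _ _).1 hζ _ (Submodule.subset_span ⟨(a, b), rfl⟩), map_zero]
    have h1 : ∀ a, ((innerSL ℂ ζ).comp (tvr (U (dl a)))).comp (U.toContinuousLinearEquiv : L2 P →L[ℂ] L2 P') = 0 := by
      intro a
      exact clm_ext fun b => h0 a b
    have h1' : ∀ a (y : L2 P'), inner ℂ ζ (tv (U (dl a)) y) = 0 := by
      intro a y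
      have := DFunLike.congr_fun (h1 a) (U.symm y)
      have h2 : inner ℂ ζ (tv (U (dl a)) (U (U.symm y))) = 0 := this
      rwa [LinearIsometryEquiv.apply_symm_apply] at h2
    have h2 : ∀ y : L2 P', ((innerSL ℂ ζ).comp (tvl y)).comp (U.toContinuousLinearEquiv : L2 P →L[ℂ] L2 P') = 0 := by
      intro y
      exact clm_ext fun a => h1' a y
    have h2' : ∀ x y : L2 P', inner ℂ ζ (tv x y) = 0 := by
      intro x y
      have := DFunLike.congr_fun (h2 y) (U.symm x)
      have h3 : inner ℂ ζ (tv (U (U.symm x)) y) = 0 := this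
      rwa [LinearIsometryEquiv.apply_symm_apply] at h3
    refine vec_ext fun r => ?_
    obtain ⟨p, q⟩ := r
    rw [← inner_dl, ← inner_conj_symm, ← tv_dl, h2', map_zero]
    rfl
  let B : HilbertBasis (P × P) ℂ (L2 (P' × P')) := HilbertBasis.mkOfOrthogonalEqBot hon htot
  have hB : ∀ r : P × P, B.repr.symm (dl r) = tv (U (dl r.1)) (U (dl r.2)) := by
    intro r
    have h1 : B.repr.symm (lp.single 2 r (1 : ℂ)) = B r := HilbertBasis.repr_symm_single B r
    have h2 : B r = tv (U (dl r.1)) (U (dl r.2)) := by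
      rw [HilbertBasis.coe_mkOfOrthogonalEqBot hon htot]
    have h3 : (dl r : L2 (P × P)) = lp.single 2 r (1 : ℂ) := by
      refine vec_ext fun s => ?_
      by_cases h : s = r
      · subst h
        rw [dl_apply_self]
        simp [lp.single_apply]
      · rw [dl_apply_ne h]
        simp [lp.single_apply, h]
    rw [← h2, ← h1, h3]
  refine ⟨B.repr.symm, fun a b p q => ?_, fun x y x' y' hx hy ξ => ?_⟩
  · rw [hB]
    rfl
  · have hV : ∀ ξ η : L2 P, B.repr.symm (tv ξ η) = tv (U ξ) (U η) := by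
      intro ξ η
      have h1 : ∀ p, (B.repr.symm.toContinuousLinearEquiv : L2 (P × P) →L[ℂ] L2 (P' × P')).comp (tvr (dl p)) =
          (tvr (U (dl p))).comp (U.toContinuousLinearEquiv : L2 P →L[ℂ] L2 P') := by
        intro p
        refine clm_ext fun q => ?_
        show B.repr.symm (tv (dl p) (dl q)) = tv (U (dl p)) (U (dl q))
        rw [tv_dl, hB]
      have h2 : (B.repr.symm.toContinuousLinearEquiv : L2 (P × P) →L[ℂ] L2 (P' × P')).comp (tvl η) =
          (tvl (U η)).comp (U.toContinuousLinearEquiv : L2 P →L[ℂ] L2 P') := by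
        refine clm_ext fun p => ?_
        exact DFunLike.congr_fun (h1 p) η
      exact DFunLike.congr_fun h2 ξ
    have h3 : (B.repr.symm.toContinuousLinearEquiv : L2 (P × P) →L[ℂ] L2 (P' × P')).comp (TT P P x y) =
        (TT P' P' x' y').comp (B.repr.symm.toContinuousLinearEquiv : L2 (P × P) →L[ℂ] L2 (P' × P')) := by
      refine clm_ext fun r => ?_
      obtain ⟨a, b⟩ := r
      show B.repr.symm (TT P P x y (dl (a, b))) = TT P' P' x' y' (B.repr.symm (dl (a, b)))
      rw [← tv_dl, TT_tv, hV, hV, TT_tv, hx, hy]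
    exact DFunLike.congr_fun h3 ξ

end

end Pool.Agent.H257.TW.TVV
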