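import Pool.Agent.H257.TW.RP
import Pool.Agent.H257.TW.TVV
import Pool.Agent.H257.TW.IU
import Pool.Agent.H257.TW.ICC
import Pool.Agent.H257.TW.TRI
import Pool.Agent.H257.TW.PACK
import Pool.Agent.H257.HD.Main2
import Pool.Agent.H257.HD.NEU
import Pool.Agent.H257.HD.ORT
import Pool.Agent.H257.HD.COF
import Pool.Agent.H257.HD.FIN

/-!
# Project TW: assembly
-/

set_option autoImplicit false

namespace Pool.Agent.H257.TW

open Pool.Agent.H494R3.GT Pool.Agent.N557.QW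
open Pool.Agent.N414.LR (Op IsIcc)
open Pool.Agent.W661.RC (HasT)
open Pool.Agent.H257.HD (Tight)
open Filter

noncomputable section

/-- a tight operator for the unitaries of an isomorphism makes it group-like -/
theorem gl_of_tight (G Λ : Type) [Group G] [Group Λ] (hicc : IsIcc G)
    (θ : (LG G).toStarSubalgebra ≃⋆ₐ[ℂ] (LG Λ).toStarSubalgebra)
    (hθ : ∀ x, cf (θ x : Op Λ) 1 = cf (x : Op G) 1)
    (hT : ∀ W : G →* unitary (Op Λ), (∀ h, (W h : Op Λ) = θ ⟨lam h, lam_mem h⟩) →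
      ∃ T : Op Λ, T ≠ 0 ∧ Tight W T) : GpL θ := by
  obtain ⟨v, hve, hv, htr, hd⟩ := Pool.Agent.N414.LR.END.t_den G Λ θ hθ
  obtain ⟨w, s, hw, hp⟩ := Pool.Agent.H257.HD.t_pre G Λ v hv (hT v hve)
  obtain ⟨V, hV⟩ := Pool.Agent.H257.HD.NEU.main G hicc
  have h2 := Pool.Agent.H257.HD.ORT.main Pool.Agent.H257.HD.ORT.c0 G Λ v w s V hv htr hw hp hV
  have h3 := Pool.Agent.N414.LR.UNI.main G Λ v w hw hv htr hd h2
  obtain ⟨W, hW, hWu, hWw⟩ := Pool.Agent.N499.LR.WWW.main Λ w hw h3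
  obtain ⟨f, χ, hf⟩ := Pool.Agent.H257.HD.FIN.main G Λ v W hv htr hd hW hWu
    (Pool.Agent.H257.HD.COF.main Pool.Agent.H257.HD.MIX.main G Λ v W s V hv htr hd hW hWu
      (by rw [hWw]; exact hp) hV)
  exact ⟨f, χ, W, hW, hWu, fun g => by rw [← hve g, hf g]⟩

theorem symm_trace (G Λ₁ Λ₂ : Type) [Group G] [Group Λ₁] [Group Λ₂]
    (θ₁ : (LG G).toStarSubalgebra ≃⋆ₐ[ℂ] (LG Λ₁).toStarSubalgebra)
    (θ₂ : (LG G).toStarSubalgebra ≃⋆ₐ[ℂ] (LG Λ₂).toStarSubalgebra)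
    (h₁ : ∀ x, cf (θ₁ x : Op Λ₁) 1 = cf (x : Op G) 1)
    (h₂ : ∀ x, cf (θ₂ x : Op Λ₂) 1 = cf (x : Op G) 1) (x : (LG Λ₁).toStarSubalgebra) :
    cf (θ₁.symm.trans θ₂ x : Op Λ₂) 1 = cf (x : Op Λ₁) 1 := by
  have h3 := h₁ (θ₁.symm x)
  rw [StarAlgEquiv.apply_symm_apply] at h3
  rw [h3]
  exact h₂ (θ₁.symm x)

/-- the dichotomy -/
theorem dich (G : Type) [Group G] (hicc : IsIcc G) (hT : HasT G) (S : Finset G) (h1 : 1 ∈ S)
    (hS : Subgroup.closure (S : Set G) = ⊤) :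
    ∃ r : ℝ, 0 ≤ r ∧ r < 1 ∧ ∀ (Λ₁ Λ₂ : Type) [Group Λ₁] [Group Λ₂]
      (θ₁ : (LG G).toStarSubalgebra ≃⋆ₐ[ℂ] (LG Λ₁).toStarSubalgebra)
      (θ₂ : (LG G).toStarSubalgebra ≃⋆ₐ[ℂ] (LG Λ₂).toStarSubalgebra),
      (∀ x, cf (θ₁ x : Op Λ₁) 1 = cf (x : Op G) 1) →
      (∀ x, cf (θ₂ x : Op Λ₂) 1 = cf (x : Op G) 1) →
      GpL (θ₁.symm.trans θ₂) ∨
      ∀ n : ℕ, ‖∑ w ∈ Fintype.piFinset (fun _ : Fin n => S),
        ∑' p, (starRingEnd ℂ) (DD θ₁ (List.ofFn w).prod p) * DD θ₂ (List.ofFn w).prod p‖ ≤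
          (r * S.card) ^ n := by
  classical
  obtain ⟨r, hr0, hr1, hr⟩ := Pool.Agent.H257.HD.GAP.main G hT S h1 hS
  refine ⟨r, hr0, hr1, ?_⟩
  intro Λ₁ Λ₂ _ _ θ₁ θ₂ h₁ h₂
  obtain ⟨ρ, hco, hinv⟩ := RP.main TVV.main IU.main TRI.main G Λ₁ Λ₂ θ₁ θ₂ h₁ h₂
  by_cases hζ : ∃ ζ : L2 (G × G), ζ ≠ 0 ∧ ∀ g, (ρ g : Op (G × G)) ζ = ζ
  · left
    exact gl_of_tight Λ₁ Λ₂ (ICC.main G Λ₁ ⟨θ₁⟩ hicc) _ (symm_trace G Λ₁ Λ₂ θ₁ θ₂ h₁ h₂)
      (hinv hζ)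
  · right
    intro n
    set o : L2 (G × G) := dl (1, 1) with ho
    have ho1 : ‖o‖ = 1 :=
      (dl_orthonormal (P := G × G) (f := fun g => g) Function.injective_id).1 (1, 1)
    have h4 := Pool.Agent.H257.HD.GAP.pow G S r (L2 (G × G)) ρ hr0 (hr _ ρ (by
      intro x hx
      by_contra hne
      exact hζ ⟨x, hne, hx⟩)) n o
    have h5 : (starRingEnd ℂ) (∑ w ∈ Fintype.piFinset (fun _ : Fin n => S),
        ∑' p, (starRingEnd ℂ) (DD θ₁ (List.ofFn w).prod p) * DD θ₂ (List.ofFn w).prod p) =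
        inner ℂ o (∑ w ∈ Fintype.piFinset (fun _ : Fin n => S),
          (ρ (List.ofFn w).prod : Op (G × G)) o) := by
      rw [inner_sum, map_sum]
      exact Finset.sum_congr rfl fun w _ => (hco _).symm
    have h6 := norm_inner_le_norm (𝕜 := ℂ) o (∑ w ∈ Fintype.piFinset (fun _ : Fin n => S),
          (ρ (List.ofFn w).prod : Op (G × G)) o)
    rw [← h5, RCLike.norm_conj, ho1, one_mul] at h6
    rw [ho1, mul_one] at h4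
    exact h6.trans h4

end

end Pool.Agent.H257.TW
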