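import Pool.Agent.H257.TW.Tools

/-!
# Project TW: the representation of two comultiplications
-/

set_option autoImplicit false

namespace Pool.Agent.H257.TW.RP

open Pool.Agent.H494R3.GT Pool.Agent.N557.QW Pool.Agent.N169.QWP
open Pool.Agent.N414.LR (Op IsIcc)
open Pool.Agent.N2.LR.HS (mk2 mk2_apply sq_summable sq_tsum)
open Pool.Agent.H257.HD (Tight)
open Filter

noncomputable section

/-- conjugation with `V` -/
def kk {P Q : Type} (V : L2 P ≃ₗᵢ[ℂ] L2 Q) : Op Q ≃⋆ₐ[ℂ] Op P := V.symm.conjStarAlgEquiv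

lemma kk_ap {P Q : Type} (V : L2 P ≃ₗᵢ[ℂ] L2 Q) (y : Op Q) (ξ : L2 P) :
    kk V y ξ = V.symm (y (V ξ)) := by
  rw [kk, LinearIsometryEquiv.conjStarAlgEquiv_apply_apply, LinearIsometryEquiv.symm_symm]

lemma kk_eq {P Q : Type} (V : L2 P ≃ₗᵢ[ℂ] L2 Q) (x : Op P) (y : Op Q)
    (h : ∀ ξ, V (x ξ) = y (V ξ)) : kk V y = x := by
  ext1 ξ
  rw [kk_ap, ← h, LinearIsometryEquiv.symm_apply_apply]

section
variable {G Λ : Type} [Group G] [Group Λ]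
  (θ : (LG G).toStarSubalgebra ≃⋆ₐ[ℂ] (LG Λ).toStarSubalgebra)

/-- the element of `L(G)` -/
def ll (g : G) : (LG G).toStarSubalgebra := ⟨lam g, lam_mem g⟩

lemma ll_mul (g h : G) : ll (g * h) = ll g * ll h := Subtype.ext (lam_mul g h)

lemma ll_one : ll (1 : G) = 1 := Subtype.ext lam_one

lemma ll_star (g : G) : star (ll g) = ll g⁻¹ := Subtype.ext (star_lam g)

/-- data: the unitaries implementing `θ` and its tensor square -/
structure Imp (U : L2 G ≃ₗᵢ[ℂ] L2 Λ) (V : L2 (G × G) ≃ₗᵢ[ℂ] L2 (Λ × Λ)) : Prop where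
  u1 : U (dl 1) = dl 1
  ux : ∀ (x : (LG G).toStarSubalgebra) (ξ : L2 G), U ((x : Op G) ξ) = (θ x : Op Λ) (U ξ)
  ve : ∀ (a b : G) (p q : Λ), (V (dl (a, b))) (p, q) = (U (dl a)) p * (U (dl b)) q
  vt : ∀ (x y : Op G) (x' y' : Op Λ), (∀ ξ, U (x ξ) = x' (U ξ)) → (∀ ξ, U (y ξ) = y' (U ξ)) →
      ∀ ξ, V (TT G G x y ξ) = TT Λ Λ x' y' (V ξ)

variable {θ} {U : L2 G ≃ₗᵢ[ℂ] L2 Λ} {V : L2 (G × G) ≃ₗᵢ[ℂ] L2 (Λ × Λ)} (I : Imp θ U V)

include I

lemma Imp.v1 : V (dl (1, 1)) = dl (1, 1) := by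
  apply vec_ext
  rintro ⟨p, q⟩
  rw [I.ve, I.u1]
  by_cases e1 : p = 1
  · by_cases e2 : q = 1
    · rw [e1, e2, dl_apply_self, dl_apply_self, one_mul]
    · rw [dl_apply_ne e2, mul_zero, dl_apply_ne (fun h => e2 (Prod.ext_iff.1 h).2)]
  · rw [dl_apply_ne e1, zero_mul, dl_apply_ne (fun h => e1 (Prod.ext_iff.1 h).1)]

lemma Imp.u_dl (g : G) : U (dl g) = (θ (ll g) : Op Λ) (dl 1) := by
  have h := I.ux (ll g) (dl 1)
  rw [I.u1] at h
  rw [← h]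
  change _ = U (lam g (dl 1))
  rw [lam_dl, mul_one]

/-- `TT x y` in the coordinates of `Λ` -/
lemma Imp.kTT (x y : (LG G).toStarSubalgebra) :
    kk V (TT Λ Λ (θ x : Op Λ) (θ y : Op Λ)) = TT G G (x : Op G) (y : Op G) :=
  kk_eq V _ _ (I.vt _ _ _ _ (I.ux x) (I.ux y))

/-- the left action -/
def AA (_ : Imp θ U V) (x : (LG G).toStarSubalgebra) : Op (G × G) := kk V (ZZ Λ (θ x : Op Λ))

/-- the right action -/
def BB (_ : Imp θ U V) (x : (LG G).toStarSubalgebra) : Op (G × G) := kk V (XX Λ (θ x : Op Λ))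

lemma AA_one : AA I 1 = 1 := by
  rw [AA, map_one]
  change kk V (ZZ Λ 1) = 1
  rw [ZZ_one, map_one]

lemma BB_one : BB I 1 = 1 := by
  rw [BB, map_one]
  change kk V (XX Λ 1) = 1
  rw [XX_one, map_one]

lemma AA_mul (x y : (LG G).toStarSubalgebra) : AA I (x * y) = AA I x * AA I y := by
  rw [AA, map_mul]
  change kk V (ZZ Λ ((θ x : Op Λ) * (θ y : Op Λ))) = _
  rw [ZZ_mul, map_mul]; rfl

lemma BB_mul (x y : (LG G).toStarSubalgebra) : BB I (x * y) = BB I x * BB I y := by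
  rw [BB, map_mul]
  change kk V (XX Λ ((θ x : Op Λ) * (θ y : Op Λ))) = _
  rw [XX_mul, map_mul]; rfl

lemma AA_star (x : (LG G).toStarSubalgebra) : AA I (star x) = star (AA I x) := by
  have h : θ (star x) = star (θ x) := θ.map_star' x
  rw [AA, h]
  change kk V (ZZ Λ (star (θ x : Op Λ))) = _
  rw [ZZ_star]
  exact (kk V).map_star' _

lemma BB_star (x : (LG G).toStarSubalgebra) : BB I (star x) = star (BB I x) := by
  have h : θ (star x) = star (θ x) := θ.map_star' x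
  rw [BB, h]
  change kk V (XX Λ (star (θ x : Op Λ))) = _
  rw [XX_star]
  exact (kk V).map_star' _

lemma AA_mem (x : (LG G).toStarSubalgebra) : AA I x ∈ LG (G × G) := by
  rw [mem_LG]
  intro g
  set r : Op (Λ × Λ) := (kk V).symm (rgt g) with hr
  have hrk : kk V r = rgt g := by rw [hr, StarAlgEquiv.apply_symm_apply]
  have h1 : ∀ p : Λ × Λ, lam p * r = r * lam p := by
    rintro ⟨h, k⟩
    apply (kk V).injective
    change kk V (lam (h, k) * r) = kk V (r * lam (h, k))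
    rw [map_mul, map_mul, hrk]
    have h2 : kk V (lam (h, k)) = TT G G ((θ.symm (ll h) : (LG G).toStarSubalgebra) : Op G)
        ((θ.symm (ll k) : (LG G).toStarSubalgebra) : Op G) := by
      rw [← I.kTT, StarAlgEquiv.apply_symm_apply, StarAlgEquiv.apply_symm_apply]
      change _ = kk V (TT Λ Λ (lam h) (lam k))
      rw [TT_lam]
    rw [h2]
    exact ((mem_LG.1 (TT_mem (θ.symm (ll h)).2 (θ.symm (ll k)).2)) g).symm
  have h3 := commute (ZZ_mem (θ x).2) h1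
  have h4 := congrArg (kk V) h3
  rw [map_mul, map_mul, hrk] at h4
  exact h4

lemma BB_lam (x : (LG G).toStarSubalgebra) (g : G × G) : lam g * BB I x = BB I x * lam g := by
  obtain ⟨a, b⟩ := g
  have h1 : (lam (a, b) : Op (G × G)) = kk V (TT Λ Λ (θ (ll a) : Op Λ) (θ (ll b) : Op Λ)) := by
    rw [I.kTT]
    change _ = TT G G (lam a) (lam b)
    rw [TT_lam]
  rw [h1, BB, ← map_mul, ← map_mul, XX_comm (θ x).2 (TT_mem (θ (ll a)).2 (θ (ll b)).2)]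

lemma AA_dl (x : (LG G).toStarSubalgebra) :
    AA I x (dl (1, 1)) = V.symm (dg Λ (U ((x : Op G) (dl 1)))) := by
  rw [AA, kk_ap, I.v1, ZZ_dl (θ x).2, I.ux, I.u1]

lemma BB_dl (x : (LG G).toStarSubalgebra) :
    star (BB I x) (dl (1, 1)) = V.symm (dg Λ (U ((x : Op G) (dl 1)))) := by
  have h : star (kk V (XX Λ (θ x : Op Λ))) = kk V (star (XX Λ (θ x : Op Λ))) :=
    ((kk V).map_star' _).symm
  rw [BB, h, kk_ap, I.v1, XX_dl (θ x).2, I.ux, I.u1]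

/-- the vector `DD θ g` -/
def Dv (_ : Imp θ U V) (g : G) : L2 (G × G) := V.symm (dg Λ (U (dl g)))

lemma Dv_ap (g : G) (p : G × G) : Dv I g p = DD θ g p := by
  classical
  obtain ⟨a, b⟩ := p
  rw [← inner_dl, Dv, ← LinearIsometryEquiv.inner_map_map V, LinearIsometryEquiv.apply_symm_apply,
    lp.inner_eq_tsum]
  have hinj : Function.Injective (fun h : Λ => ((h, h) : Λ × Λ)) := fun a b e =>
    (Prod.ext_iff.1 e).1
  have hc : ∀ (g : G) (h : Λ), (U (dl g)) h = cf (θ ⟨lam g, lam_mem g⟩ : Op Λ) h := by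
    intro g h
    rw [I.u_dl, cf, inner_dl]; rfl
  rw [← hinj.tsum_eq, DD]
  · refine tsum_congr fun h => ?_
    rw [dg_ap, if_pos rfl, RCLike.inner_apply, I.ve, map_mul, hc, hc, hc]
  · rintro ⟨c, d⟩ hcd
    by_cases e : c = d
    · exact ⟨c, by rw [e]⟩
    · exfalso
      apply hcd
      beta_reduce
      rw [dg_ap, if_neg e, inner_zero_right]

lemma Dv_norm (g : G) : ‖Dv I g‖ = 1 := by
  rw [Dv, LinearIsometryEquiv.norm_map, LinearIsometry.norm_map, LinearIsometryEquiv.norm_map]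
  exact (dl_orthonormal (P := G) (f := fun g => g) Function.injective_id).1 g

end

lemma ext_dl {P F : Type} [NormedAddCommGroup F] [NormedSpace ℂ F] {f g : L2 P →L[ℂ] F}
    (h : ∀ p, f (dl p) = g (dl p)) : f = g := by
  apply ContinuousLinearMap.ext_on (s := Set.range (dl : P → L2 P))
  · rw [Submodule.dense_iff_topologicalClosure_eq_top]
    exact Pool.Agent.N414.LR.END.span_dl P
  · rintro _ ⟨p, rfl⟩
    exact h p

lemma inner_star {P : Type} (T : Op P) (a b : L2 P) :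
    inner ℂ (star T a) b = inner ℂ a (T b) := by
  rw [ContinuousLinearMap.star_eq_adjoint, ContinuousLinearMap.adjoint_inner_left]

section
variable {G Λ : Type} [Group G] [Group Λ]
  {θ : (LG G).toStarSubalgebra ≃⋆ₐ[ℂ] (LG Λ).toStarSubalgebra}
  {U : L2 G ≃ₗᵢ[ℂ] L2 Λ} {V : L2 (G × G) ≃ₗᵢ[ℂ] L2 (Λ × Λ)} (I : Imp θ U V)

lemma AA_uni (g : G) : AA I (ll g) ∈ unitary (Op (G × G)) := by
  rw [Unitary.mem_iff, ← AA_star, ← AA_mul, ← AA_mul, ll_star, ← ll_mul, ← ll_mul,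
    inv_mul_cancel, mul_inv_cancel, ll_one, AA_one]
  exact ⟨rfl, rfl⟩

lemma BB_uni (g : G) : BB I (ll g) ∈ unitary (Op (G × G)) := by
  rw [Unitary.mem_iff, ← BB_star, ← BB_mul, ← BB_mul, ll_star, ← ll_mul, ← ll_mul,
    inv_mul_cancel, mul_inv_cancel, ll_one, BB_one]
  exact ⟨rfl, rfl⟩

/-- the isometry `ξ ↦ (x dl_1 ↦ AA x dl_1)` -/
def FF (_ : Imp θ U V) : L2 G →L[ℂ] L2 (G × G) :=
  (V.symm.toLinearIsometry.toContinuousLinearMap).comp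
    ((dg Λ).toContinuousLinearMap.comp U.toLinearIsometry.toContinuousLinearMap)

lemma FF_ap (ξ : L2 G) : FF I ξ = V.symm (dg Λ (U ξ)) := rfl

lemma AA_dlp (x : (LG G).toStarSubalgebra) (p : G × G) :
    AA I x (dl p) = rgt p (FF I ((x : Op G) (dl 1))) := by
  have h1 : (dl p : L2 (G × G)) = rgt p (dl 1) := by rw [rgt_dl, one_mul]
  have h2 := congrArg (fun z : Op (G × G) => z (dl 1)) (mem_LG.1 (AA_mem I x) p)
  simp only [mul_ap] at h2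
  rw [h1, ← h2]
  congr 1
  exact AA_dl I x

lemma BB_dlp (x : (LG G).toStarSubalgebra) (p : G × G) :
    star (BB I x) (dl p) = lam p (FF I ((x : Op G) (dl 1))) := by
  have h1 : (dl p : L2 (G × G)) = lam p (dl 1) := by rw [lam_dl, mul_one]
  have h2 := congrArg (fun z : Op (G × G) => z (dl 1)) (BB_lam I (star x) p)
  simp only [mul_ap] at h2
  rw [BB_star] at h2
  rw [h1, ← h2]
  congr 1
  exact BB_dl I x

end

section two
variable {G Λ₁ Λ₂ : Type} [Group G] [Group Λ₁] [Group Λ₂]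
  {θ₁ : (LG G).toStarSubalgebra ≃⋆ₐ[ℂ] (LG Λ₁).toStarSubalgebra}
  {θ₂ : (LG G).toStarSubalgebra ≃⋆ₐ[ℂ] (LG Λ₂).toStarSubalgebra}
  {U₁ : L2 G ≃ₗᵢ[ℂ] L2 Λ₁} {V₁ : L2 (G × G) ≃ₗᵢ[ℂ] L2 (Λ₁ × Λ₁)}
  {U₂ : L2 G ≃ₗᵢ[ℂ] L2 Λ₂} {V₂ : L2 (G × G) ≃ₗᵢ[ℂ] L2 (Λ₂ × Λ₂)}
  (I₁ : Imp θ₁ U₁ V₁) (I₂ : Imp θ₂ U₂ V₂)

lemma AB (x y : (LG G).toStarSubalgebra) : BB I₂ y * AA I₁ x = AA I₁ x * BB I₂ y :=
  commute (AA_mem I₁ x) (BB_lam I₂ y)

/-- the representation -/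
def rho : G →* unitary (Op (G × G)) where
  toFun g := ⟨AA I₁ (ll g) * BB I₂ (ll g), mul_mem (AA_uni I₁ g) (BB_uni I₂ g)⟩
  map_one' := by
    apply Subtype.ext
    change AA I₁ (ll 1) * BB I₂ (ll 1) = 1
    rw [ll_one, AA_one, BB_one, one_mul]
  map_mul' g h := by
    apply Subtype.ext
    change AA I₁ (ll (g * h)) * BB I₂ (ll (g * h)) =
      AA I₁ (ll g) * BB I₂ (ll g) * (AA I₁ (ll h) * BB I₂ (ll h))
    rw [ll_mul, AA_mul, BB_mul]
    calc AA I₁ (ll g) * AA I₁ (ll h) * (BB I₂ (ll g) * BB I₂ (ll h))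
        = AA I₁ (ll g) * (AA I₁ (ll h) * BB I₂ (ll g)) * BB I₂ (ll h) := by
          simp only [mul_assoc]
      _ = AA I₁ (ll g) * (BB I₂ (ll g) * AA I₁ (ll h)) * BB I₂ (ll h) := by rw [AB I₁ I₂]
      _ = AA I₁ (ll g) * BB I₂ (ll g) * (AA I₁ (ll h) * BB I₂ (ll h)) := by
          simp only [mul_assoc]

lemma rho_ap (g : G) : (rho I₁ I₂ g : Op (G × G)) = AA I₁ (ll g) * BB I₂ (ll g) := rfl

lemma coeff (g : G) :
    inner ℂ (dl ((1 : G), (1 : G))) ((rho I₁ I₂ g : Op (G × G)) (dl (1, 1))) =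
      (starRingEnd ℂ) (∑' p, (starRingEnd ℂ) (DD θ₁ g p) * DD θ₂ g p) := by
  have h1 : AA I₁ (ll g) (dl (1, 1)) = Dv I₁ g := by
    rw [AA_dl, Dv]
    change V₁.symm (dg Λ₁ (U₁ (lam g (dl 1)))) = _
    rw [lam_dl, mul_one]
  have h2 : star (BB I₂ (ll g)) (dl (1, 1)) = Dv I₂ g := by
    rw [BB_dl, Dv]
    change V₂.symm (dg Λ₂ (U₂ (lam g (dl 1)))) = _
    rw [lam_dl, mul_one]
  rw [rho_ap, ← AB, mul_ap, ← inner_star, h1, h2, lp.inner_eq_tsum, Complex.conj_tsum]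
  refine tsum_congr fun p => ?_
  rw [RCLike.inner_apply, Dv_ap, Dv_ap, map_mul, Complex.conj_conj]

lemma inv_all {ζ : L2 (G × G)} (hζ : ∀ g, (rho I₁ I₂ g : Op (G × G)) ζ = ζ)
    (x : (LG G).toStarSubalgebra) : BB I₂ x ζ = star (AA I₁ x) ζ := by
  apply vec_ext
  intro p
  have key : (innerSL ℂ ζ).comp ((lam p : Op (G × G)).comp (FF I₂)) =
      (innerSL ℂ ζ).comp ((rgt p : Op (G × G)).comp (FF I₁)) := by
    apply ext_dl
    intro g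
    change inner ℂ ζ (lam p (FF I₂ (dl g))) = inner ℂ ζ (rgt p (FF I₁ (dl g)))
    have h1 : (dl g : L2 G) = ((ll g : (LG G).toStarSubalgebra) : Op G) (dl 1) := by
      change _ = lam g (dl 1)
      rw [lam_dl, mul_one]
    rw [h1, ← AA_dlp, ← BB_dlp]
    have h2 : BB I₂ (ll g) ζ = star (AA I₁ (ll g)) ζ := by
      have h3 := hζ g
      rw [rho_ap, mul_ap] at h3
      have h4 := (Unitary.mem_iff.1 (AA_uni I₁ g)).1
      have h5 := congrArg (fun z : Op (G × G) => z (BB I₂ (ll g) ζ)) h4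
      simp only [mul_ap] at h5
      rw [h3] at h5
      exact h5.symm
    rw [← inner_star (AA I₁ (ll g)), ← h2, ← inner_star (star (BB I₂ (ll g))), star_star]
  have h6 := congrArg (fun z : L2 G →L[ℂ] ℂ => z ((x : Op G) (dl 1))) key
  change inner ℂ ζ (lam p (FF I₂ ((x : Op G) (dl 1)))) =
    inner ℂ ζ (rgt p (FF I₁ ((x : Op G) (dl 1)))) at h6
  rw [← AA_dlp, ← BB_dlp, ← inner_star (AA I₁ x), ← inner_star (star (BB I₂ x)), star_star] at h6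
  have h7 := congrArg (starRingEnd ℂ) h6
  rw [inner_conj_symm, inner_conj_symm, inner_dl, inner_dl] at h7
  exact h7

lemma inv_tri {ζ : L2 (G × G)} (hζ : ∀ g, (rho I₁ I₂ g : Op (G × G)) ζ = ζ)
    (W : Λ₁ →* unitary (Op Λ₂)) (hW : ∀ h, (W h : Op Λ₂) = θ₂ (θ₁.symm ⟨lam h, lam_mem h⟩))
    (h : Λ₁) : (TT Λ₂ Λ₂ (W h) (W h) * XX Λ₂ (W h)) (V₂ ζ) = V₂ ζ := by
  set x : (LG G).toStarSubalgebra := θ₁.symm ⟨lam h, lam_mem h⟩ with hx
  have h0 : (θ₁ x : Op Λ₁) = lam h := by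
    rw [hx, StarAlgEquiv.apply_symm_apply]
  have h1 : AA I₁ x = TT G G (x : Op G) (x : Op G) := by
    rw [AA, h0, ZZ_lam, ← I₁.kTT, h0]
  have h2 := inv_all I₁ I₂ hζ x
  rw [h1, TT_star] at h2
  have h3 : TT G G (star (x : Op G)) (star (x : Op G)) =
      kk V₂ (TT Λ₂ Λ₂ (star (W h : Op Λ₂)) (star (W h : Op Λ₂))) := by
    have h4 := I₂.kTT (star x) (star x)
    have h5 : θ₂ (star x) = star (θ₂ x) := θ₂.map_star' x
    rw [h5] at h4
    rw [hW h]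
    exact h4.symm
  rw [h3, BB, kk_ap, kk_ap, ← hW h] at h2
  have h6 := V₂.symm.injective h2
  rw [mul_ap, h6, ← mul_ap, ← TT_mul]
  have h7 := (Unitary.mem_iff.1 (W h).2).2
  rw [h7, TT_one]
  rfl

end two

theorem main (hT : S_TVV) (hI : S_IU) (hR : S_TRI) : S_RP := by
  intro G Λ₁ Λ₂ _ _ _ θ₁ θ₂ h₁ h₂
  obtain ⟨U₁, a₁, b₁⟩ := hI G Λ₁ θ₁ h₁
  obtain ⟨U₂, a₂, b₂⟩ := hI G Λ₂ θ₂ h₂
  obtain ⟨V₁, c₁, d₁⟩ := hT G Λ₁ U₁
  obtain ⟨V₂, c₂, d₂⟩ := hT G Λ₂ U₂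
  have I₁ : Imp θ₁ U₁ V₁ := ⟨a₁, b₁, c₁, d₁⟩
  have I₂ : Imp θ₂ U₂ V₂ := ⟨a₂, b₂, c₂, d₂⟩
  refine ⟨rho I₁ I₂, coeff I₁ I₂, ?_⟩
  rintro ⟨ζ, hζ0, hζ⟩ W hW
  refine hR Λ₁ Λ₂ W (fun h => by rw [hW]; exact (θ₂ _).2) (V₂ ζ) ?_ (inv_tri I₁ I₂ hζ W hW)
  intro h
  apply hζ0
  exact V₂.injective (by rw [h, map_zero])

theorem ddn (hT : S_TVV) (hI : S_IU) : S_DDN := by
  intro G Λ _ _ θ h g
  obtain ⟨U, a, b⟩ := hI G Λ θ h
  obtain ⟨V, c, d⟩ := hT G Λ U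
  have I : Imp θ U V := ⟨a, b, c, d⟩
  have h1 := (sq_summable (Dv I g)).hasSum
  rw [sq_tsum, Dv_norm, one_pow] at h1
  simpa only [Dv_ap] using h1

end

end Pool.Agent.H257.TW.RP
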