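import Pool.Agent.H257.HD.Stm
import Pool.Graph.R_pool_sql_team_seeded_63374d34.N414.LR.TEN
import Pool.Graph.R_pool_sql_team_seeded_63374d34.N414.LR.BAR
import Pool.Graph.R_pool_sql_team_seeded_63374d34.N414.LR.RE0
import Pool.Graph.R_pool_sql_team_seeded_63374d34.N414.LR.END
import Pool.Graph.R_pool_sql_team_seeded_63374d34.N2.LR.HS

/-!
# Project TW (two targets): definitions and statements

`Γ` is an icc group with property (T); `θ₁ : L(Γ) → L(Λ₁)`, `θ₂ : L(Γ) → L(Λ₂)` are trace preserving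
`*`-isomorphisms.  Either `θ₂ θ₁⁻¹` is group-like, or the comultiplications of `Λ₁` and of `Λ₂`, seen
in `L(Γ) ⊗ L(Γ)`, become orthogonal exponentially fast along products of generators of `Γ`.

`Op P`: bounded operators of `L2 P = ℓ²(P)`, `dl` the canonical basis, `LG Λ` the group von Neumann
algebra (commutant of the right translations `rgt s : dl t ↦ dl (t s)`), `lam s : dl t ↦ dl (s t)`,
`cf x h = ⟨dl h, x (dl 1)⟩`.
-/

set_option autoImplicit false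

namespace Pool.Agent.H257.TW

open Pool.Agent.H494R3.GT Pool.Agent.N557.QW
open Pool.Agent.N414.LR (Op IsIcc)
open Pool.Agent.N414.LR.RE0 (cj ee)
open Pool.Agent.W661.RC (HasT)
open Pool.Agent.H257.HD (Tight)
open Filter

noncomputable section

/-- tensor product of operators, with the entries
`(TT x y (dl (p, q))) (p', q') = (x (dl p)) p' * (y (dl q)) q'` -/
def TT (P Q : Type) : Op P → Op Q → Op (P × Q) := (Pool.Agent.N414.LR.TEN.main P Q).choose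

lemma TT_one (P Q : Type) : TT P Q 1 1 = 1 := (Pool.Agent.N414.LR.TEN.main P Q).choose_spec.1

lemma TT_mul (P Q : Type) (x x' : Op P) (y y' : Op Q) :
    TT P Q (x * x') (y * y') = TT P Q x y * TT P Q x' y' :=
  (Pool.Agent.N414.LR.TEN.main P Q).choose_spec.2.1 x x' y y'

lemma TT_star (P Q : Type) (x : Op P) (y : Op Q) :
    star (TT P Q x y) = TT P Q (star x) (star y) :=
  (Pool.Agent.N414.LR.TEN.main P Q).choose_spec.2.2.1 x y

lemma TT_ap (P Q : Type) (x : Op P) (y : Op Q) (p p' : P) (q q' : Q) :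
    (TT P Q x y (dl (p, q))) (p', q') = (x (dl p)) p' * (y (dl q)) q' := by
  have h := (Pool.Agent.N414.LR.TEN.main P Q).choose_spec.2.2.2 x y p q p' q'
  rw [inner_dl, inner_dl, inner_dl] at h
  exact h

/-- complex conjugate of an operator -/
def CC (P : Type) : Op P → Op P := (Pool.Agent.N414.LR.BAR.main P).choose

lemma CC_one (P : Type) : CC P 1 = 1 := (Pool.Agent.N414.LR.BAR.main P).choose_spec.1

lemma CC_mul (P : Type) (x y : Op P) : CC P (x * y) = CC P x * CC P y :=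
  (Pool.Agent.N414.LR.BAR.main P).choose_spec.2.1 x y

lemma CC_star (P : Type) (x : Op P) : CC P (star x) = star (CC P x) :=
  (Pool.Agent.N414.LR.BAR.main P).choose_spec.2.2.1 x

lemma CC_ap (P : Type) (x : Op P) (p q : P) :
    (CC P x (dl p)) q = (starRingEnd ℂ) ((x (dl p)) q) := by
  have h := (Pool.Agent.N414.LR.BAR.main P).choose_spec.2.2.2 x p q
  rw [inner_dl, inner_dl] at h
  exact h

/-- `XX x = ∑_h conj(x(h)) rgt (h⁻¹, h⁻¹)` for `x ∈ L(Λ)`: the right diagonal action on `ℓ²(Λ × Λ)` -/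
def XX (Λ : Type) [Group Λ] (x : Op Λ) : Op (Λ × Λ) :=
  cj (ee Λ) (TT Λ Λ (cj (Equiv.inv Λ) (CC Λ x)) 1)

open scoped Classical in
/-- the entries of `XX x` (proof as in `N414.LR.RE0`) -/
lemma XX_ap {Λ : Type} [Group Λ] {x : Op Λ} (hx : x ∈ LG Λ) (a b a' b' : Λ) :
    (XX Λ x (dl (a, b))) (a', b') =
      (starRingEnd ℂ) (cf x (a'⁻¹ * a)) * (if b * a⁻¹ = b' * a'⁻¹ then 1 else 0) := by
  rw [XX, Pool.Agent.N414.LR.RE0.cj_entry, Pool.Agent.N414.LR.RE0.ee_ap,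
    Pool.Agent.N414.LR.RE0.ee_ap]
  rw [TT_ap, Pool.Agent.N414.LR.RE0.cj_entry, CC_ap, Pool.Agent.N169.QWP.LG_coeff hx]
  congr 1
  · simp only [Equiv.inv_apply, inv_inv]
  · change (dl (b * a⁻¹) : L2 Λ) (b' * a'⁻¹) = _
    by_cases h : b * a⁻¹ = b' * a'⁻¹
    · rw [if_pos h, h, dl_apply_self]
    · rw [if_neg h, dl_apply_ne (fun h' => h h'.symm)]

/-- TVV: the tensor square of a unitary `U : ℓ²(P) → ℓ²(P')`.
Proof.  For `x, y` in `ℓ²(P')` let `tv x y` be the vector `(p, q) ↦ x p * y q` of `ℓ²(P' × P')`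
(`Pool.Agent.N2.LR.HS.mk2`); `⟨tv x y, tv x' y'⟩ = ⟨x, x'⟩ ⟨y, y'⟩`, and `tv` is linear and continuous
in each argument (`‖tv x y‖ = ‖x‖ ‖y‖`).  The vectors `tv (U (dl a)) (U (dl b))`, `(a, b) ∈ P × P`, are
orthonormal and total: if `ζ` is orthogonal to all of them then, by continuity (`{dl a}` is total in
`ℓ²(P)` and `U` is onto), to all `tv x y`, in particular to `dl (p, q) = tv (dl p) (dl q)`, so `ζ = 0`.
So they form a Hilbert basis `b` (`HilbertBasis.mk` or `HilbertBasis.mkOfOrthogonalEqBot`) and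
`V = b.repr.symm`.  `TT x' y' (tv ξ η) = tv (x' ξ) (y' η)` (both sides are continuous and linear in
`ξ`, `η`, so check `ξ = dl p`, `η = dl q` with `TT_ap`), and `V (tv ξ η) = tv (U ξ) (U η)` likewise, so
`V (TT x y (dl (a, b))) = V (tv (x (dl a)) (y (dl b))) = tv (U (x (dl a))) (U (y (dl b))) =
tv (x' (U (dl a))) (y' (U (dl b))) = TT x' y' (V (dl (a, b)))`; then for all `ξ` by density. -/
def S_TVV : Prop :=
  ∀ (P P' : Type) (U : L2 P ≃ₗᵢ[ℂ] L2 P'), ∃ V : L2 (P × P) ≃ₗᵢ[ℂ] L2 (P' × P'),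
    (∀ (a b : P) (p q : P'), (V (dl (a, b))) (p, q) = (U (dl a)) p * (U (dl b)) q) ∧
    ∀ (x y : Op P) (x' y' : Op P'), (∀ ξ, U (x ξ) = x' (U ξ)) → (∀ ξ, U (y ξ) = y' (U ξ)) →
      ∀ ξ, V (TT P P x y ξ) = TT P' P' x' y' (V ξ)

/-- IU: a trace preserving isomorphism is implemented by a unitary.
Proof.  `v g = θ (lam g)` (`Pool.Agent.N414.LR.END.t_den`); the vectors `v g (dl 1)` are orthonormal
(`⟨v g (dl 1), v h (dl 1)⟩ = cf (v (g⁻¹ h)) 1`) and total, so they form a Hilbert basis `b` of `ℓ²(Λ)`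
and `U = b.repr.symm` (`U (dl g) = v g (dl 1)`).  For `x ∈ L(G)`: `U (x (dl 1)) = θ(x) (dl 1)`, as
`⟨v g (dl 1), θ(x) (dl 1)⟩ = cf (θ (lam g⁻¹ * x)) 1 = cf (lam g⁻¹ * x) 1 = ⟨dl g, x (dl 1)⟩ =
⟨U (dl g), U (x (dl 1))⟩` for all `g`.  So `U (x (dl g)) = U ((x * lam g) (dl 1)) =
θ(x * lam g) (dl 1) = θ(x) (U (dl g))`, and `U (x ξ) = θ(x) (U ξ)` by density. -/
def S_IU : Prop :=
  ∀ (G Λ : Type) [Group G] [Group Λ]
    (θ : (LG G).toStarSubalgebra ≃⋆ₐ[ℂ] (LG Λ).toStarSubalgebra),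
    (∀ x, cf (θ x : Op Λ) 1 = cf (x : Op G) 1) →
    ∃ U : L2 G ≃ₗᵢ[ℂ] L2 Λ, U (dl 1) = dl 1 ∧
      ∀ (x : (LG G).toStarSubalgebra) (ξ : L2 G), U ((x : Op G) ξ) = (θ x : Op Λ) (U ξ)

/-- ICC: the icc property is an invariant of the group von Neumann algebra.
Proof.  Let `h ≠ 1` have the finite conjugacy class `C` in `Λ` and `z = ∑_{k ∈ C} lam k ∈ L(Λ)`.  `z`
commutes with every `y ∈ L(Λ)`: `z = ∑_{k ∈ C} rgt k'`-like: precisely `lam s * z = z * lam s` for all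
`s`, so `z` commutes with `L(Λ)` by `Pool.Agent.N169.QWP.commute`.  So `x = θ⁻¹(z)` commutes with all
`lam g`, `g ∈ G`, hence `cf x (g a g⁻¹) = cf x a`; as `∑ ‖cf x a‖² < ∞` and `G` is icc, `cf x a = 0` for
`a ≠ 1`, so `x = c • 1` and `z = θ(x) = c • 1`, but `cf z h = 1` and `cf (c • 1) h = 0`. -/
def S_ICC : Prop :=
  ∀ (G Λ : Type) [Group G] [Group Λ],
    Nonempty ((LG G).toStarSubalgebra ≃⋆ₐ[ℂ] (LG Λ).toStarSubalgebra) → IsIcc G → IsIcc Λ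

/-- TRI: an invariant vector of the representation `g ↦ TT (v g) (v g) * XX (v g)` on `ℓ²(Λ × Λ)`
gives a tight operator.
Proof (simpler version of the last part of `Pool.Agent.H257.HD.REP`).  Let `K` be the operator with
the entries `K(b, d) = ζ (b d⁻¹, d⁻¹)` (`Pool.Agent.N2.LR.HS.main`, `hs K = ‖ζ‖²`).  With `XX_ap`,
`(XX (v g) ζ)(p, q) = ∑_k conj(v_g(k)) ζ(p k, q k)`, one gets
`en (ad (v g) K) b d = (TT (v g) 1 (XX (v g) ζ)) (b d⁻¹, d⁻¹)`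
(`∑_{p', k} v_g(b d⁻¹ p'⁻¹) conj(v_g(k)) ζ(p' k, d⁻¹ k)`, substitute `k = d d'⁻¹`, `p' = b' d⁻¹`).  As
`TT 1 (v g) (TT (v g) 1 (XX (v g) ζ)) = ζ`, `TT (v g) 1 (XX (v g) ζ) = star D ζ` with the unitary
`D = TT 1 (v g)`, which commutes with the multiplication `MM S` by the indicator function of
`S = {(p, q) | p ∉ A}`.  So `tl A (ad (v g) K) = ∑_{p ∉ A} |(star D ζ)(p, q)|² = ‖MM S (star D ζ)‖² =
‖MM S ζ‖²`, which is small if `A ⊇ {p | (p, q) ∈ Φ}` for a large finite `Φ`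
(`Pool.Agent.H257.HD.REP.exists_small`, `MM_comm`, `MM_apply`, `enorm_sq`, `ap_coeff`). -/
def S_TRI : Prop :=
  ∀ (G Λ : Type) [Group G] [Group Λ] (v : G →* unitary (Op Λ)), (∀ g, (v g : Op Λ) ∈ LG Λ) →
    ∀ ζ : L2 (Λ × Λ), ζ ≠ 0 → (∀ g, (TT Λ Λ (v g) (v g) * XX Λ (v g)) ζ = ζ) →
      ∃ T : Op Λ, T ≠ 0 ∧ Tight v T

/-- PACK: a packing bound.
Proof.  Let `x i ∈ F = EuclideanSpace ℂ (Fin m × E)`, `x i (j, p) = D i j p / √m`.  `‖x i‖ ≤ 1`.  For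
`i ≠ i'` the vectors `y i = (D i j p / √m)_{(j, p)}` of `ℓ²(Fin m × P)` are unit vectors with
`‖⟨y i, y i'⟩‖ ≤ 1/8`, so `‖y i - y i'‖² ≥ 2 - 1/4 = 7/4`; the parts of `y i`, `y i'` outside `E` have
square norm at most `1/64` each, so that of the difference is at most `4/64 = 1/16`, and
`‖x i - x i'‖² = ‖y i - y i'‖² - (outside part) ≥ 7/4 - 1/16 ≥ 1`.  So the `x i` are distinct,
`1`-separated and in the ball of radius `2`: `Besicovitch.card_le_of_separated` (real vector space `F`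
of dimension `2 m |E|`) gives `N ≤ 5 ^ (2 m |E|) = 25 ^ (m |E|)`. -/
def S_PACK : Prop :=
  ∀ (P : Type) (N m : ℕ) (E : Finset P) (D : Fin N → Fin m → P → ℂ), 0 < m →
    (∀ i j, HasSum (fun p => ‖D i j p‖ ^ 2) 1) →
    (∀ i i', i ≠ i' →
      ‖∑ j, ∑' p, (starRingEnd ℂ) (D i j p) * D i' j p‖ ≤ (m : ℝ) / 8) →
    (∀ i, ∑ j, (1 - ∑ p ∈ E, ‖D i j p‖ ^ 2) ≤ (m : ℝ) / 64) →
    N ≤ 25 ^ (m * E.card)

/-- the comultiplication of `Λ` in the coordinates of `G` -/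
def DD {G Λ : Type} [Group G] [Group Λ]
    (θ : (LG G).toStarSubalgebra ≃⋆ₐ[ℂ] (LG Λ).toStarSubalgebra) (g : G) (p : G × G) : ℂ :=
  ∑' h, cf (θ ⟨lam g, lam_mem g⟩ : Op Λ) h *
    ((starRingEnd ℂ) (cf (θ ⟨lam p.1, lam_mem p.1⟩ : Op Λ) h) *
      (starRingEnd ℂ) (cf (θ ⟨lam p.2, lam_mem p.2⟩ : Op Λ) h))

/-- `θ` is group-like -/
def GpL {G Λ : Type} [Group G] [Group Λ]
    (θ : (LG G).toStarSubalgebra ≃⋆ₐ[ℂ] (LG Λ).toStarSubalgebra) : Prop :=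
  ∃ (f : G ≃* Λ) (χ : G →* unitary ℂ) (w : Op Λ), w ∈ LG Λ ∧ w ∈ unitary (Op Λ) ∧
    ∀ g, (θ ⟨lam g, lam_mem g⟩ : Op Λ) = ((χ g : unitary ℂ) : ℂ) • (w * lam (f g) * star w)

/-- RP: the representation of `G` on `ℓ²(G × G)` given by the left action of the comultiplication of
`Λ₁` and the right action of the comultiplication of `Λ₂`. -/
def S_RP : Prop :=
  ∀ (G Λ₁ Λ₂ : Type) [Group G] [Group Λ₁] [Group Λ₂]
    (θ₁ : (LG G).toStarSubalgebra ≃⋆ₐ[ℂ] (LG Λ₁).toStarSubalgebra)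
    (θ₂ : (LG G).toStarSubalgebra ≃⋆ₐ[ℂ] (LG Λ₂).toStarSubalgebra),
    (∀ x, cf (θ₁ x : Op Λ₁) 1 = cf (x : Op G) 1) →
    (∀ x, cf (θ₂ x : Op Λ₂) 1 = cf (x : Op G) 1) →
    ∃ ρ : G →* unitary (Op (G × G)),
      (∀ g, inner ℂ (dl ((1 : G), (1 : G))) ((ρ g : Op (G × G)) (dl (1, 1))) =
        (starRingEnd ℂ) (∑' p, (starRingEnd ℂ) (DD θ₁ g p) * DD θ₂ g p)) ∧
      ((∃ ζ : L2 (G × G), ζ ≠ 0 ∧ ∀ g, (ρ g : Op (G × G)) ζ = ζ) →
        ∀ W : Λ₁ →* unitary (Op Λ₂),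
          (∀ h, (W h : Op Λ₂) = θ₂ (θ₁.symm ⟨lam h, lam_mem h⟩)) →
          ∃ T : Op Λ₂, T ≠ 0 ∧ Tight W T)

/-- DDN: the comultiplication consists of unit vectors. -/
def S_DDN : Prop :=
  ∀ (G Λ : Type) [Group G] [Group Λ]
    (θ : (LG G).toStarSubalgebra ≃⋆ₐ[ℂ] (LG Λ).toStarSubalgebra),
    (∀ x, cf (θ x : Op Λ) 1 = cf (x : Op G) 1) →
    ∀ g, HasSum (fun p => ‖DD θ g p‖ ^ 2) 1

end

end Pool.Agent.H257.TW
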