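import Pool.Agent.H257.TW.Stm

/-!
# Project TW: tools
-/

set_option autoImplicit false

namespace Pool.Agent.H257.TW

open Pool.Agent.H494R3.GT Pool.Agent.N557.QW Pool.Agent.N169.QWP
open Pool.Agent.N414.LR (Op IsIcc)
open Pool.Agent.N414.LR.RE0 (cj ee cj_entry cj_one cj_mul cj_star)
open Pool.Agent.N2.LR.HS (mk2 mk2_apply sq_summable sq_tsum)
open Filter

noncomputable section

lemma one_ap {P : Type} (p q : P) : ((1 : Op P) (dl p)) q = (dl p : L2 P) q := rfl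

section
variable {Λ : Type} [Group Λ]

lemma XX_one : XX Λ 1 = 1 := by
  rw [XX, CC_one, cj_one, TT_one, cj_one]

lemma XX_mul (x y : Op Λ) : XX Λ (x * y) = XX Λ x * XX Λ y := by
  rw [XX, XX, XX, CC_mul, cj_mul, ← cj_mul (ee Λ), ← TT_mul, one_mul]

lemma XX_star (x : Op Λ) : XX Λ (star x) = star (XX Λ x) := by
  rw [XX, XX, CC_star, cj_star, ← cj_star (ee Λ), TT_star, star_one]

lemma XX_lam {x : Op Λ} (hx : x ∈ LG Λ) (g : Λ × Λ) : lam g * XX Λ x = XX Λ x * lam g := by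
  classical
  apply op_ext
  rintro ⟨a, b⟩
  apply vec_ext
  rintro ⟨a', b'⟩
  rw [mul_ap, mul_ap, lam_dl]
  have h1 : ∀ w : L2 (Λ × Λ), (lam g w) (a', b') = w (g⁻¹ * (a', b')) := by
    intro w
    rw [lam, UU_apply]
    rfl
  rw [h1]
  obtain ⟨h, k⟩ := g
  have e1 : ((h, k) : Λ × Λ)⁻¹ * (a', b') = (h⁻¹ * a', k⁻¹ * b') := rfl
  have e2 : ((h, k) : Λ × Λ) * (a, b) = (h * a, k * b) := rfl
  rw [e1, e2, XX_ap hx, XX_ap hx]
  congr 1
  · congr 2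
    group
  · have e3 : b * a⁻¹ = k⁻¹ * b' * (h⁻¹ * a')⁻¹ ↔ k * b * (h * a)⁻¹ = b' * a'⁻¹ := by
      constructor
      · intro e
        calc k * b * (h * a)⁻¹ = k * (b * a⁻¹) * h⁻¹ := by group
          _ = b' * a'⁻¹ := by rw [e]; group
      · intro e
        calc b * a⁻¹ = k⁻¹ * (k * b * (h * a)⁻¹) * h := by group
          _ = k⁻¹ * b' * (h⁻¹ * a')⁻¹ := by rw [e]; group
    by_cases h5 : b * a⁻¹ = k⁻¹ * b' * (h⁻¹ * a')⁻¹
    · rw [if_pos h5, if_pos (e3.1 h5)]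
    · rw [if_neg h5, if_neg (fun h6 => h5 (e3.2 h6))]

lemma XX_comm {x : Op Λ} (hx : x ∈ LG Λ) {y : Op (Λ × Λ)} (hy : y ∈ LG (Λ × Λ)) :
    XX Λ x * y = y * XX Λ x :=
  commute hy (XX_lam hx)

lemma TT_mem {x y : Op Λ} (hx : x ∈ LG Λ) (hy : y ∈ LG Λ) : TT Λ Λ x y ∈ LG (Λ × Λ) := by
  rw [mem_LG_iff]
  rintro ⟨s, t⟩ ⟨s', t'⟩
  rw [cf, inner_dl, inner_dl]
  have e1 : ((s', t') : Λ × Λ) * (s, t)⁻¹ = (s' * s⁻¹, t' * t⁻¹) := rfl
  have e2 : (1 : Λ × Λ) = (1, 1) := rfl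
  rw [e1, e2, TT_ap, TT_ap, LG_coeff hx, LG_coeff hy, LG_coeff hx, LG_coeff hy]
  simp

lemma TT_lam (h k : Λ) : TT Λ Λ (lam h) (lam k) = lam (h, k) := by
  apply op_ext
  rintro ⟨a, b⟩
  apply vec_ext
  rintro ⟨a', b'⟩
  rw [TT_ap, lam_dl, lam_dl, lam_dl]
  change _ = (dl (h * a, k * b) : L2 (Λ × Λ)) (a', b')
  by_cases e1 : a' = h * a
  · by_cases e2 : b' = k * b
    · rw [e1, e2, dl_apply_self, dl_apply_self, dl_apply_self, one_mul]
    · rw [dl_apply_ne e2, mul_zero, dl_apply_ne (fun h => e2 (Prod.ext_iff.1 h).2)]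
  · rw [dl_apply_ne e1, zero_mul, dl_apply_ne (fun h => e1 (Prod.ext_iff.1 h).1)]

/-- the permutation `(a, b) ↦ (a, a⁻¹ b)` -/
def sl (Λ : Type) [Group Λ] : Equiv.Perm (Λ × Λ) where
  toFun p := (p.1, p.1⁻¹ * p.2)
  invFun p := (p.1, p.1 * p.2)
  left_inv p := by simp
  right_inv p := by simp

lemma sl_ap (p : Λ × Λ) : sl Λ p = (p.1, p.1⁻¹ * p.2) := rfl

/-- `ZZ x = ∑_h x(h) lam (h, h)` for `x ∈ L(Λ)`: the left diagonal action on `ℓ²(Λ × Λ)` -/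
def ZZ (Λ : Type) [Group Λ] (x : Op Λ) : Op (Λ × Λ) := cj (sl Λ) (TT Λ Λ x 1)

lemma ZZ_one : ZZ Λ 1 = 1 := by rw [ZZ, TT_one, cj_one]

lemma ZZ_mul (x y : Op Λ) : ZZ Λ (x * y) = ZZ Λ x * ZZ Λ y := by
  rw [ZZ, ZZ, ZZ, ← cj_mul (sl Λ), ← TT_mul, one_mul]

lemma ZZ_star (x : Op Λ) : ZZ Λ (star x) = star (ZZ Λ x) := by
  rw [ZZ, ZZ, ← cj_star (sl Λ), TT_star, star_one]

open scoped Classical in
lemma ZZ_ap {x : Op Λ} (hx : x ∈ LG Λ) (a b a' b' : Λ) :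
    (ZZ Λ x (dl (a, b))) (a', b') =
      cf x (a' * a⁻¹) * (if a⁻¹ * b = a'⁻¹ * b' then 1 else 0) := by
  rw [ZZ, cj_entry, sl_ap, sl_ap, TT_ap, LG_coeff hx]
  congr 1
  change (dl (a⁻¹ * b) : L2 Λ) (a'⁻¹ * b') = _
  by_cases h : a⁻¹ * b = a'⁻¹ * b'
  · rw [if_pos h, h, dl_apply_self]
  · rw [if_neg h, dl_apply_ne (fun h' => h h'.symm)]

lemma ZZ_mem {x : Op Λ} (hx : x ∈ LG Λ) : ZZ Λ x ∈ LG (Λ × Λ) := by
  classical
  rw [mem_LG_iff]
  rintro ⟨s, t⟩ ⟨s', t'⟩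
  rw [cf, inner_dl, inner_dl]
  have e1 : ((s', t') : Λ × Λ) * (s, t)⁻¹ = (s' * s⁻¹, t' * t⁻¹) := rfl
  have e2 : (1 : Λ × Λ) = (1, 1) := rfl
  rw [e1, e2, ZZ_ap hx, ZZ_ap hx]
  congr 1
  · congr 1
    group
  · have e3 : s⁻¹ * t = s'⁻¹ * t' ↔ (1 : Λ)⁻¹ * 1 = (s' * s⁻¹)⁻¹ * (t' * t⁻¹) := by
      constructor
      · intro e
        calc (1 : Λ)⁻¹ * 1 = s * (s⁻¹ * t) * t⁻¹ := by group
          _ = (s' * s⁻¹)⁻¹ * (t' * t⁻¹) := by rw [e]; group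
      · intro e
        calc s⁻¹ * t = s⁻¹ * ((1 : Λ)⁻¹ * 1) * t := by group
          _ = s'⁻¹ * t' := by rw [e]; group
    by_cases h5 : s⁻¹ * t = s'⁻¹ * t'
    · rw [if_pos h5, if_pos (e3.1 h5)]
    · rw [if_neg h5, if_neg (fun h6 => h5 (e3.2 h6))]

lemma ZZ_lam (h : Λ) : ZZ Λ (lam h) = TT Λ Λ (lam h) (lam h) := by
  classical
  apply op_ext
  rintro ⟨a, b⟩
  apply vec_ext
  rintro ⟨a', b'⟩
  rw [ZZ_ap (lam_mem h), TT_lam, lam_dl]
  change _ = (dl (h * a, h * b) : L2 (Λ × Λ)) (a', b')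
  rw [cf, lam_dl, inner_dl, mul_one]
  by_cases e1 : a' = h * a
  · subst e1
    rw [show h * a * a⁻¹ = h by group, dl_apply_self, one_mul]
    by_cases e2 : b' = h * b
    · subst e2
      rw [dl_apply_self, if_pos (by group)]
    · rw [dl_apply_ne (fun h => e2 (Prod.ext_iff.1 h).2), if_neg]
      intro e3
      apply e2
      calc b' = h * a * ((h * a)⁻¹ * b') := by group
        _ = h * b := by rw [← e3]; group
  · rw [dl_apply_ne (fun h => e1 (Prod.ext_iff.1 h).1), dl_apply_ne, zero_mul]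
    intro e3
    apply e1
    rw [← e3]
    group

open scoped Classical in
/-- the vector `x` on the diagonal -/
lemma dg_summable (v : L2 Λ) :
    Summable fun p : Λ × Λ => ‖(if p.1 = p.2 then v p.1 else 0 : ℂ)‖ ^ 2 := by
  have hinj : Function.Injective (fun h : Λ => ((h, h) : Λ × Λ)) := fun a b e =>
    (Prod.ext_iff.1 e).1
  rw [← hinj.summable_iff]
  · simpa [Function.comp_def] using sq_summable v
  · rintro ⟨a, b⟩ hab
    have : a ≠ b := fun e => hab ⟨a, by rw [e]⟩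
    simp [this]

open scoped Classical in
/-- the diagonal embedding `ℓ²(Λ) → ℓ²(Λ × Λ)` -/
def dg (Λ : Type) [Group Λ] : L2 Λ →ₗᵢ[ℂ] L2 (Λ × Λ) where
  toFun v := mk2 (fun p : Λ × Λ => if p.1 = p.2 then v p.1 else 0) (dg_summable v)
  map_add' v w := by
    refine vec_ext fun p => ?_
    change _ = (if p.1 = p.2 then v p.1 else 0) + (if p.1 = p.2 then w p.1 else 0)
    rw [mk2_apply]
    by_cases h : p.1 = p.2
    · simp only [if_pos h]; rfl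
    · simp only [if_neg h, add_zero]
  map_smul' c v := by
    refine vec_ext fun p => ?_
    change _ = c * (if p.1 = p.2 then v p.1 else 0)
    rw [mk2_apply]
    by_cases h : p.1 = p.2
    · simp only [if_pos h]; rfl
    · simp only [if_neg h, mul_zero]
  norm_map' v := by
    have hinj : Function.Injective (fun h : Λ => ((h, h) : Λ × Λ)) := fun a b e =>
      (Prod.ext_iff.1 e).1
    refine (sq_eq_sq₀ (norm_nonneg _) (norm_nonneg _)).1 ?_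
    change ‖mk2 (fun p : Λ × Λ => if p.1 = p.2 then v p.1 else 0) (dg_summable v)‖ ^ 2 = _
    rw [← sq_tsum, ← sq_tsum]
    simp only [mk2_apply]
    rw [← hinj.tsum_eq]
    · simp
    · rintro ⟨a, b⟩ hab
      by_cases e : a = b
      · exact ⟨a, by rw [e]⟩
      · exfalso
        apply hab
        simp [e]

open scoped Classical in
lemma dg_ap (v : L2 Λ) (p : Λ × Λ) : (dg Λ v) p = if p.1 = p.2 then v p.1 else 0 := rfl

lemma ZZ_dl {x : Op Λ} (hx : x ∈ LG Λ) : ZZ Λ x (dl (1, 1)) = dg Λ (x (dl 1)) := by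
  classical
  apply vec_ext
  rintro ⟨a, b⟩
  rw [ZZ_ap hx, dg_ap, LG_coeff hx]
  by_cases e : a = b
  · subst e
    simp
  · have h1 : ¬ ((1 : Λ)⁻¹ * 1 = a⁻¹ * b) := by
      intro h
      apply e
      have : a⁻¹ * b = 1 := by rw [← h]; group
      exact inv_mul_eq_one.1 this
    rw [if_neg h1, mul_zero, if_neg e]

lemma XX_dl {x : Op Λ} (hx : x ∈ LG Λ) : star (XX Λ x) (dl (1, 1)) = dg Λ (x (dl 1)) := by
  classical
  apply vec_ext
  rintro ⟨a, b⟩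
  rw [star_ap, XX_ap hx, dg_ap, LG_coeff hx]
  by_cases e : a = b
  · subst e
    simp
  · have h1 : ¬ (b * a⁻¹ = 1 * (1 : Λ)⁻¹) := by
      intro h
      apply e
      have : b * a⁻¹ = 1 := by rw [h]; group
      exact (mul_inv_eq_one.1 this).symm
    rw [if_neg h1, mul_zero, if_neg e, map_zero]

end

end

end Pool.Agent.H257.TW
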